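import Pool.Agent.W139.PX.F5

/-! Palindromes with prescribed outer digits in residue classes. -/

set_option autoImplicit false

namespace Pool.Agent.TH872.PF

open Finset Filter Topology Pool.Agent.Helper112
open Pool.Agent.H39R3.PB (ph ph_nonneg ph_le_one ph_add_int dilate coprime_b)
open Pool.Agent.W89.PW (fr Fw ps)
open Pool.Agent.H623R3.PBT8 (orth group coprime_pos)
open Pool.Agent.W261.PWBV (U U_nonneg Fw_nonneg double U_sum)

/-- the integers with free mirrored digits -/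
def vv (b L J N0 : ℕ) (m : Fin L → Fin b) : ℕ := N0 + b ^ J * ∑ c : Fin L, (m c : ℕ) * fr b L c

lemma ph_one (x : ℝ) : ph 1 x = 1 := by
  unfold ph
  simp [ls_ee_zero]

lemma norm_sum_vv {b : ℕ} (hb : 0 < b) (L J N0 : ℕ) (α : ℝ) :
    ‖∑ m : Fin L → Fin b, ee (α * (vv b L J N0 m : ℝ))‖ = (b : ℝ) ^ L * Fw b b 1 L L ((b : ℝ) ^ J * α) := by
  have hbr : (b : ℝ) ≠ 0 := by exact_mod_cast hb.ne'
  have h1 : ∀ m : Fin L → Fin b, ee (α * (vv b L J N0 m : ℝ)) =
      ee (α * N0) * ∏ c : Fin L, ee (((m c : ℕ) : ℝ) * (fr b L c * ((b : ℝ) ^ J * α))) := by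
    intro m
    have h2 : ∏ c : Fin L, ee (((m c : ℕ) : ℝ) * (fr b L c * ((b : ℝ) ^ J * α))) =
        ee (∑ c : Fin L, ((m c : ℕ) : ℝ) * (fr b L c * ((b : ℝ) ^ J * α))) := by
      have : ∀ s : Finset (Fin L), ∏ c ∈ s, ee (((m c : ℕ) : ℝ) * (fr b L c * ((b : ℝ) ^ J * α))) =
          ee (∑ c ∈ s, ((m c : ℕ) : ℝ) * (fr b L c * ((b : ℝ) ^ J * α))) := by
        intro s
        induction s using Finset.induction_on with
        | empty => simp [ls_ee_zero]
        | insert a s ha ih => rw [prod_insert ha, sum_insert ha, ls_ee_add, ih]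
      exact this univ
    rw [h2, ← ls_ee_add]
    congr 1
    unfold vv
    push_cast
    rw [mul_add, mul_sum, mul_sum]
    congr 1
    refine sum_congr rfl fun c _ => ?_
    ring
  rw [sum_congr rfl (fun m _ => h1 m), ← mul_sum, norm_mul, ls_norm_ee, one_mul]
  have h3 : ∑ m : Fin L → Fin b, ∏ c : Fin L, ee (((m c : ℕ) : ℝ) * (fr b L c * ((b : ℝ) ^ J * α))) =
      ∏ c : Fin L, ∑ x : Fin b, ee (((x : ℕ) : ℝ) * (fr b L c * ((b : ℝ) ^ J * α))) := by
    rw [Finset.prod_univ_sum, Fintype.piFinset_univ]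
  rw [h3, norm_prod]
  have h4 : ∀ c : Fin L, ‖∑ x : Fin b, ee (((x : ℕ) : ℝ) * (fr b L c * ((b : ℝ) ^ J * α)))‖ =
      b * ps b 1 (fr b L (c : ℕ) * ((b : ℝ) ^ J * α)) := by
    intro c
    unfold ps
    rw [ph_one, mul_one, Fin.sum_univ_eq_sum_range (fun x : ℕ => ee ((x : ℝ) * (fr b L c * ((b : ℝ) ^ J * α)))) b, ph,
      mul_div_cancel₀ _ hbr]
  rw [prod_congr rfl (fun c _ => h4 c), prod_mul_distrib, prod_const, card_univ, Fintype.card_fin]
  congr 1
  unfold Fw
  rw [Fin.prod_univ_eq_prod_range (fun j => ps b 1 (fr b L j * ((b : ℝ) ^ J * α))) L]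

lemma Fw_add_int (b L : ℕ) (x : ℝ) (n : ℤ) : Fw b b 1 L L (x + n) = Fw b b 1 L L x := by
  unfold Fw
  apply prod_congr rfl
  intro j _
  unfold ps
  have : (fr b L j : ℝ) * (x + n) = fr b L j * x + ((fr b L j * n : ℤ) : ℝ) := by
    push_cast; ring
  rw [this, ph_add_int, ph_add_int]

/-- the bound for the error in the residue classes -/
noncomputable def EE (b L q : ℕ) : ℝ := (b : ℝ) ^ L / q * ∑ d ∈ q.divisors.filter (fun d => 1 < d), U b b 1 L d

lemma EE_nonneg (b L q : ℕ) : 0 ≤ EE b L q :=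
  mul_nonneg (by positivity) (sum_nonneg fun _ _ => U_nonneg _ _ _ _ _)

theorem cnt_vv {b : ℕ} (hb : 0 < b) (L J N0 q h : ℕ) (hq : q.Coprime (2 * b)) :
    |(((univ : Finset (Fin L → Fin b)).filter (fun m => vv b L J N0 m ≡ h [MOD q])).card : ℝ) - (b : ℝ) ^ L / q| ≤
      EE b L q := by
  have hq0 := coprime_pos hq
  have hqr : (0 : ℝ) < q := by exact_mod_cast hq0
  have hqc : (q : ℂ) ≠ 0 := by exact_mod_cast hq0.ne'
  set cn : ℝ := (((univ : Finset (Fin L → Fin b)).filter (fun m => vv b L J N0 m ≡ h [MOD q])).card : ℝ) with hcn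
  set f : ℝ → ℝ := fun x => Fw b b 1 L L ((b : ℝ) ^ J * x) with hf
  -- Fourier expansion
  set T : ℕ → ℂ := fun a => ee (-(a * (h : ℝ) / q)) * ∑ m : Fin L → Fin b,
    ee ((a : ℝ) / q * (vv b L J N0 m : ℝ)) with hT
  have h1 : (cn : ℂ) = (1 / (q : ℂ)) * ∑ a ∈ range q, T a := by
    have h2 : (cn : ℂ) = ∑ m : Fin L → Fin b,
        (1 / (q : ℂ)) * ∑ a ∈ range q, ee ((a : ℝ) * ((((vv b L J N0 m : ℕ) : ℝ) - h) / q)) := by
      rw [hcn, Finset.card_filter]
      push_cast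
      refine sum_congr rfl fun m _ => ?_
      rw [orth hq0]
      split_ifs with hm
      · push_cast
        field_simp
      · simp
    rw [h2, ← mul_sum, sum_comm]
    congr 1
    refine sum_congr rfl fun a _ => ?_
    simp only [hT]
    rw [mul_sum]
    refine sum_congr rfl fun m _ => ?_
    rw [← ls_ee_add]
    congr 1
    ring
  have hT0 : T 0 = (b : ℂ) ^ L := by
    simp only [hT]
    simp [ls_ee_zero]
  have hTn : ∀ a, ‖T a‖ = (b : ℝ) ^ L * f ((a : ℝ) / q) := by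
    intro a
    simp only [hT]
    rw [norm_mul, ls_norm_ee, one_mul, norm_sum_vv hb]
  have h3 : (cn : ℂ) - (b : ℂ) ^ L / q = (1 / (q : ℂ)) * ∑ a ∈ (range q).erase 0, T a := by
    rw [h1, ← Finset.add_sum_erase _ _ (mem_range.2 hq0), hT0]
    ring
  have h4 : |cn - (b : ℝ) ^ L / q| ≤ (1 / (q : ℝ)) * ∑ a ∈ (range q).erase 0,
      (b : ℝ) ^ L * f ((a : ℝ) / q) := by
    have h5 : |cn - (b : ℝ) ^ L / q| = ‖(cn : ℂ) - (b : ℂ) ^ L / q‖ := by
      rw [← Real.norm_eq_abs, ← Complex.norm_real]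
      push_cast
      rfl
    rw [h5, h3, norm_mul]
    have h6 : ‖(1 / (q : ℂ))‖ = 1 / (q : ℝ) := by simp
    rw [h6]
    refine mul_le_mul_of_nonneg_left ?_ (by positivity)
    refine (norm_sum_le _ _).trans (le_of_eq ?_)
    exact sum_congr rfl fun a _ => hTn a
  refine h4.trans (le_of_eq ?_)
  rw [← mul_sum]
  have h7 : ∑ a ∈ (range q).erase 0, f ((a : ℝ) / q) =
      ∑ d ∈ q.divisors.filter (fun d => 1 < d), U b b 1 L d := by
    have h8 := group hq0 f
    rw [← Finset.add_sum_erase _ _ (mem_range.2 hq0)] at h8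
    have h9 : q.divisors.filter (fun d => 1 < d) = q.divisors.erase 1 := by
      ext d
      rw [mem_filter, mem_erase, Nat.mem_divisors]
      constructor
      · rintro ⟨h1, h2⟩
        exact ⟨by omega, h1⟩
      · rintro ⟨h1, h2⟩
        refine ⟨h2, ?_⟩
        have := Nat.pos_of_dvd_of_pos h2.1 hq0
        omega
    have h10 : (1 : ℕ) ∈ q.divisors := Nat.one_mem_divisors.2 hq0.ne'
    rw [← Finset.add_sum_erase _ _ h10] at h8
    have h11 : ∑ a ∈ (range 1).filter (fun a => a.Coprime 1), f ((a : ℝ) / (1 : ℕ)) =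
        f (((0 : ℕ) : ℝ) / q) := by
      simp
    rw [h11] at h8
    rw [h9]
    have h12 : ∑ d ∈ q.divisors.erase 1, ∑ a ∈ (range d).filter (fun a => a.Coprime d), f ((a : ℝ) / d) =
        ∑ d ∈ q.divisors.erase 1, U b b 1 L d := by
      apply sum_congr rfl
      intro d hd
      rw [mem_erase, Nat.mem_divisors] at hd
      have hdb : d.Coprime b := coprime_b (Nat.Coprime.coprime_dvd_left hd.2.1 hq)
      exact dilate hdb J (Fw b b 1 L L) (Fw_add_int b L)
    linarith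
  rw [h7]
  unfold EE
  ring

end Pool.Agent.TH872.PF
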