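import Pool.Agent.TH872.PF.A1

/-! The sum of the errors. -/

set_option autoImplicit false

namespace Pool.Agent.TH872.PF

open Finset Filter Topology Pool.Agent.Helper112
open Pool.Agent.W139.PX (MajP majP_alt m4_unif bigW_of_majP HU majP_unif HU_facts)
open Pool.Agent.W89.PW (fr Fw ps BigW PtW)
open Pool.Agent.W261.PWBV (U U_nonneg Fw_nonneg double U_sum)

/-- `κ` is an admissible level -/
def Adm (b : ℕ) (κ : ℝ) : Prop := 0 < κ ∧ κ < 1 ∧ ∃ H CM : ℝ, MajP b b 1 H CM ∧ 0 < H ∧ 1 ≤ b * H ∧ 0 < CM ∧ (b : ℝ) ^ κ * H < 1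

lemma adm_half {b : ℕ} (hb : 2 ≤ b) {κ : ℝ} (h0 : 0 < κ) (h1 : κ < 1 / 2) : Adm b κ := by
  have hbR : (2 : ℝ) ≤ b := by exact_mod_cast hb
  have hb0 : (0 : ℝ) < b := by linarith
  refine ⟨h0, by linarith, ?_⟩
  set H : ℝ := Real.sqrt (1 / b) with hH
  have hH0 : 0 < H := Real.sqrt_pos.2 (by positivity)
  have hH2 : H ^ 2 = 1 / b := Real.sq_sqrt (by positivity)
  have hb1 : 1 / (b : ℝ) ≤ 1 := by
    rw [div_le_one hb0]
    linarith
  have hH1 : H ≤ 1 := by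
    by_contra hcon
    push Not at hcon
    have h1 : 1 < H ^ 2 := one_lt_pow₀ hcon two_ne_zero
    linarith
  have hHb : 1 ≤ b * H := by
    have h1 : (b : ℝ) * H ^ 2 = 1 := by
      rw [hH2]
      field_simp
    have h2 : H ^ 2 ≤ H := by nlinarith
    have h3 : (b : ℝ) * H ^ 2 ≤ b * H := mul_le_mul_of_nonneg_left h2 hb0.le
    linarith
  have hMaj : MajP b b 1 H (1 / H ^ 3) := majP_alt hb (by omega) le_rfl le_rfl (by omega) hH0 hH1 (by
    rw [hH2, Nat.cast_one, mul_one])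
  have hκ : (b : ℝ) ^ κ * H < 1 := by
    rw [hH, Real.sqrt_eq_rpow, one_div, Real.inv_rpow hb0.le]
    rw [← div_eq_mul_inv, div_lt_one (by positivity)]
    exact Real.rpow_lt_rpow_of_exponent_lt (by linarith) h1
  exact ⟨H, 1 / H ^ 3, hMaj, hH0, hHb, by positivity, hκ⟩

lemma adm_large {b : ℕ} (hb : 64 ≤ b) {κ : ℝ} (h0 : 0 < κ) (hκ : (b : ℝ) ^ κ * (2 + 2 / Real.pi * Real.log b) < b) : Adm b κ := by
  obtain ⟨h1, h2, h3⟩ := HU_facts hb
  have hb0 : (0 : ℝ) < b := by exact_mod_cast (by omega : 0 < b)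
  have hb1 : (1 : ℝ) < b := by exact_mod_cast (by omega : 1 < b)
  have h4 : (b : ℝ) ^ κ * HU b < 1 := by
    unfold HU
    rw [← mul_div_assoc, div_lt_one hb0]
    exact hκ
  refine ⟨h0, ?_, HU b, 1, majP_unif hb, h1, h2, one_pos, h4⟩
  by_contra hcon
  push Not at hcon
  have h5 : (b : ℝ) ≤ (b : ℝ) ^ κ := by
    calc (b : ℝ) = (b : ℝ) ^ (1 : ℝ) := (Real.rpow_one _).symm
      _ ≤ _ := Real.rpow_le_rpow_of_exponent_le hb1.le hcon
  have h6 : (b : ℝ) * HU b ≤ (b : ℝ) ^ κ * HU b := mul_le_mul_of_nonneg_right h5 h1.le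
  linarith

theorem EE_sum {b : ℕ} (hb : 2 ≤ b) {κ : ℝ} (hκ : Adm b κ) (A : ℕ) : ∀ᶠ L : ℕ in atTop,
    ∑ q ∈ (Icc 1 ⌊(b : ℝ) ^ (κ * L)⌋₊).filter (fun q => q.Coprime (2 * b)), (q.divisors.card : ℝ) ^ 2 * EE b L q ≤
      (b : ℝ) ^ L / (L : ℝ) ^ A := by
  obtain ⟨hκ0, hκ1, H, CM, hMaj, hH0, hHb, hCM, hκH⟩ := hκ
  have hm4 := m4_unif hb
  have hPt : PtW b b 1 := Pool.Agent.W571.PW.Pt.main b b 1 hb hb le_rfl rfl
  have hBig : BigW b b 1 κ := bigW_of_majP hb (by omega) le_rfl rfl hm4 hMaj hH0 hHb hCM hκ0 hκH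
  have hb0 : 0 < b := by omega
  have hbr : (0 : ℝ) < b := by exact_mod_cast hb0
  have hb1 : (1 : ℝ) ≤ b := by exact_mod_cast hb0
  filter_upwards [U_sum b b 1 hb hPt κ hκ0 hκ1 hBig (A + 5), eventually_ge_atTop ((b + 1) ^ 4)] with L hL hLb
  set D := ⌊(b : ℝ) ^ (κ * L)⌋₊ with hD
  have hLb' : ((b : ℝ) + 1) ^ 4 ≤ L := by exact_mod_cast hLb
  have hL1 : (1 : ℝ) ≤ L := by
    have : (1 : ℝ) ≤ ((b : ℝ) + 1) ^ 4 := one_le_pow₀ (by linarith)
    linarith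
  have hL0 : (0 : ℝ) < L := by linarith
  have h2 := double b b 1 L D
  rw [Nat.cast_one, mul_one] at h2
  have h3 := Pool.Agent.H316R2.tau_sq_sum_le D
  have hlog : 1 + Real.log D ≤ (b + 1) * L := by
    rcases Nat.eq_zero_or_pos D with h0 | h0
    · rw [h0]
      simp only [Nat.cast_zero, Real.log_zero, add_zero]
      nlinarith
    · have hDle : (D : ℝ) ≤ (b : ℝ) ^ (κ * L) := Nat.floor_le (by positivity)
      have hDle2 : (D : ℝ) ≤ (b : ℝ) ^ ((1 : ℝ) * L) := by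
        refine hDle.trans (Real.rpow_le_rpow_of_exponent_le hb1 ?_)
        exact mul_le_mul_of_nonneg_right hκ1.le hL0.le
      have h4 : Real.log D ≤ (1 * L) * Real.log b := by
        rw [← Real.log_rpow hbr]
        exact Real.log_le_log (by exact_mod_cast h0) hDle2
      have h5 : Real.log b ≤ b - 1 := Real.log_le_sub_one_of_pos hbr
      have h6 : (1 * L) * Real.log b ≤ (1 * L) * ((b : ℝ) - 1) :=
        mul_le_mul_of_nonneg_left h5 (by positivity)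
      nlinarith [mul_pos hbr hL0]
  have hlog0 : 0 ≤ 1 + Real.log D := by
    have := Real.log_natCast_nonneg D
    linarith
  have h4 : ∑ e ∈ Icc 1 D, (e.divisors.card : ℝ) ^ 2 / e ≤ ((b : ℝ) + 1) ^ 4 * (L : ℝ) ^ 4 := by
    refine h3.trans ?_
    calc (1 + Real.log D) ^ 4 ≤ (((b : ℝ) + 1) * (L : ℝ)) ^ 4 := by gcongr
      _ = ((b : ℝ) + 1) ^ 4 * (L : ℝ) ^ 4 := by ring
  refine h2.trans ?_
  have hS0 : 0 ≤ ∑ e ∈ Icc 1 D, (e.divisors.card : ℝ) ^ 2 / e :=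
    sum_nonneg fun _ _ => by positivity
  calc (b : ℝ) ^ L * ((∑ d ∈ (Icc 2 D).filter (fun q => q.Coprime (2 * b)),
      (d.divisors.card : ℝ) ^ 2 * U b b 1 L d / d) *
        ∑ e ∈ Icc 1 D, (e.divisors.card : ℝ) ^ 2 / e)
      ≤ (b : ℝ) ^ L * ((1 / (L : ℝ) ^ (A + 5)) * (((b : ℝ) + 1) ^ 4 * (L : ℝ) ^ 4)) :=
        mul_le_mul_of_nonneg_left (mul_le_mul hL h4 hS0 (by positivity)) (by positivity)
    _ ≤ (b : ℝ) ^ L / (L : ℝ) ^ A := by
        generalize ((b : ℝ) + 1) ^ 4 = B at hLb'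
        have h5 : (1 / (L : ℝ) ^ (A + 5)) * (B * (L : ℝ) ^ 4) = B / L * (1 / (L : ℝ) ^ A) := by
          have hy : ((L : ℝ) ^ A) ≠ 0 := by positivity
          have hx : (L : ℝ) ≠ 0 := hL0.ne'
          rw [pow_add]
          generalize (L : ℝ) ^ A = y at hy
          generalize (L : ℝ) = x at hx
          field_simp
        rw [h5]
        have h6 : B / (L : ℝ) ≤ 1 := by rw [div_le_one hL0]; exact hLb'
        have h7 : (0 : ℝ) < 1 / (L : ℝ) ^ A := by positivity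
        calc (b : ℝ) ^ L * (B / L * (1 / (L : ℝ) ^ A))
            ≤ (b : ℝ) ^ L * (1 * (1 / (L : ℝ) ^ A)) := by gcongr
          _ = _ := by ring

end Pool.Agent.TH872.PF
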