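import Pool.Agent.TH872.PF.A2
import Pool.Agent.W45.UNFLA
import Pool.Agent.H20R2.EN.FLem

/-! Counting in residue classes to several moduli. -/

set_option autoImplicit false

namespace Pool.Agent.TH872.PF

open Finset Filter Topology

lemma crt (mo a : ℕ) (S : Finset ℕ) (hS : ∀ p ∈ S, p.Prime ∧ ¬ p ∣ mo) (c : ℕ → ℕ) (hc : ∀ p ∈ S, c p < p) :
    ∃ h : ℕ, ∀ n : ℕ, (n ≡ a [MOD mo] ∧ ∀ p ∈ S, n % p = c p) ↔ n ≡ h [MOD mo * ∏ p ∈ S, p] := by
  classical
  induction S using Finset.induction_on with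
  | empty => exact ⟨a, fun n => by simp⟩
  | insert p S hp ih =>
    obtain ⟨h, hh⟩ := ih (fun q hq => hS q (mem_insert_of_mem hq)) (fun q hq => hc q (mem_insert_of_mem hq))
    obtain ⟨hpp, hpm⟩ := hS p (mem_insert_self _ _)
    have hco : (mo * ∏ q ∈ S, q).Coprime p := by
      apply Nat.Coprime.symm
      rw [Nat.Prime.coprime_iff_not_dvd hpp]
      intro hd
      rcases (Nat.Prime.dvd_mul hpp).1 hd with h1 | h1
      · exact hpm h1
      · obtain ⟨q, hq, hpq⟩ := (Prime.dvd_finset_prod_iff hpp.prime _).1 h1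
        have h2 := (Nat.prime_dvd_prime_iff_eq hpp (hS q (mem_insert_of_mem hq)).1).1 hpq
        exact hp (h2 ▸ hq)
    obtain ⟨k, hk1, hk2⟩ := Nat.chineseRemainder hco h (c p)
    refine ⟨k, fun n => ?_⟩
    rw [prod_insert hp, mul_comm p, ← mul_assoc, ← Nat.modEq_and_modEq_iff_modEq_mul hco]
    have h3 := hh n
    have hcp := hc p (mem_insert_self _ _)
    constructor
    · rintro ⟨h4, h5⟩
      refine ⟨(h3.1 ⟨h4, fun q hq => h5 q (mem_insert_of_mem hq)⟩).trans hk1.symm, ?_⟩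
      have h6 := h5 p (mem_insert_self _ _)
      refine Nat.ModEq.trans ?_ hk2.symm
      unfold Nat.ModEq
      rw [h6, Nat.mod_eq_of_lt hcp]
    · rintro ⟨h4, h5⟩
      obtain ⟨h6, h7⟩ := h3.2 (h4.trans hk1)
      refine ⟨h6, fun q hq => ?_⟩
      rw [mem_insert] at hq
      rcases hq with rfl | hq
      · have h8 := h5.trans hk2
        unfold Nat.ModEq at h8
        rw [h8, Nat.mod_eq_of_lt hcp]
      · exact h7 q hq

/-- the values and their weights -/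
noncomputable def S0 (b L J N0 : ℕ) : Finset ℕ := (univ : Finset (Fin L → Fin b)).image (vv b L J N0)

noncomputable def w0 (b L J N0 n : ℕ) : ℝ := (((univ : Finset (Fin L → Fin b)).filter (fun m => vv b L J N0 m = n)).card : ℝ)

lemma wsum (b L J N0 : ℕ) (Q : ℕ → Prop) [DecidablePred Q] : ∑ n ∈ (S0 b L J N0).filter Q, w0 b L J N0 n =
    (((univ : Finset (Fin L → Fin b)).filter (fun m => Q (vv b L J N0 m))).card : ℝ) := by
  classical
  have h1 : ∀ m ∈ (univ : Finset (Fin L → Fin b)).filter (fun m => Q (vv b L J N0 m)),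
      vv b L J N0 m ∈ (S0 b L J N0).filter Q := by
    intro m hm
    rw [mem_filter] at hm ⊢
    exact ⟨mem_image_of_mem _ (mem_univ m), hm.2⟩
  rw [card_eq_sum_card_fiberwise h1]
  push_cast
  apply sum_congr rfl
  intro n hn
  rw [mem_filter] at hn
  unfold w0
  congr 2
  ext m
  rw [mem_filter, mem_filter, mem_filter]
  constructor
  · rintro ⟨h2, h3⟩
    exact ⟨⟨h2, by rw [h3]; exact hn.2⟩, h3⟩
  · rintro ⟨⟨h2, _⟩, h3⟩
    exact ⟨h2, h3⟩

open Classical in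
theorem cntS {b : ℕ} (hb : 0 < b) (L J N0 mo a : ℕ) (hmo : mo.Coprime (2 * b)) (S : Finset ℕ)
    (hS : ∀ p ∈ S, p.Prime ∧ ¬ p ∣ mo ∧ p.Coprime (2 * b)) (R : ℕ → Finset ℕ) (hR : ∀ p ∈ S, R p ⊆ range p) :
    |∑ n ∈ ((S0 b L J N0).filter (fun n => n ≡ a [MOD mo])).filter (fun n => ∀ p ∈ S, n % p ∈ R p), w0 b L J N0 n -
      (b : ℝ) ^ L / mo * ∏ p ∈ S, (((R p).card : ℝ) / p)| ≤ (∏ p ∈ S, ((R p).card : ℝ)) * EE b L (mo * ∏ p ∈ S, p) := by
  rw [Pool.Agent.W45.UNFLA.sum_dec]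
  have hq : (mo * ∏ p ∈ S, p).Coprime (2 * b) := by
    apply Nat.Coprime.mul_left hmo
    exact Nat.Coprime.prod_left fun p hp => (hS p hp).2.2
  have h1 : (b : ℝ) ^ L / mo * ∏ p ∈ S, (((R p).card : ℝ) / p) = ∑ _c ∈ S.pi R, (b : ℝ) ^ L / ((mo * ∏ p ∈ S, p : ℕ) : ℝ) := by
    rw [sum_const, card_pi, nsmul_eq_mul, prod_div_distrib]
    push_cast
    field_simp
  have h2 : (∏ p ∈ S, ((R p).card : ℝ)) * EE b L (mo * ∏ p ∈ S, p) = ∑ _c ∈ S.pi R, EE b L (mo * ∏ p ∈ S, p) := by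
    rw [sum_const, card_pi, nsmul_eq_mul]
    push_cast
    rfl
  rw [h1, h2, ← sum_sub_distrib]
  refine (abs_sum_le_sum_abs _ _).trans ?_
  apply sum_le_sum
  intro c hc
  rw [Finset.mem_pi] at hc
  obtain ⟨h, hh⟩ := crt mo a S (fun p hp => ⟨(hS p hp).1, (hS p hp).2.1⟩) (fun p => if h : p ∈ S then c p h else 0) (by
    intro p hp
    simp only [hp, dif_pos]
    exact mem_range.1 (hR p hp (hc p hp)))
  have h3 : ∑ n ∈ ((S0 b L J N0).filter (fun n => n ≡ a [MOD mo])).filter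
      (fun n => ∀ p ∈ S, n % p = if h : p ∈ S then c p h else 0), w0 b L J N0 n =
      (((univ : Finset (Fin L → Fin b)).filter (fun m => vv b L J N0 m ≡ h [MOD (mo * ∏ p ∈ S, p)])).card : ℝ) := by
    rw [filter_filter, wsum]
    congr 2
    apply filter_congr
    intro m _
    exact hh _
  rw [h3]
  exact cnt_vv hb L J N0 _ h hq

end Pool.Agent.TH872.PF
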