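import Pool.Agent.TH872.PF.A3

/-! The fundamental lemma for palindromes with prescribed outer digits. -/

set_option autoImplicit false

namespace Pool.Agent.TH872.PF

open Finset Filter Topology

/-- the exponent of the double power -/
def JJ (y : ℕ) : ℕ := Nat.log 2 (Nat.log 2 y) + 1

lemma JJ_lt (y : ℕ) : y < 2 ^ 2 ^ JJ y := by
  have h1 : y < 2 ^ (Nat.log 2 y + 1) := Nat.lt_pow_succ_log_self (by norm_num) y
  have h2 : Nat.log 2 y + 1 ≤ 2 ^ JJ y := Nat.lt_pow_succ_log_self (by norm_num) _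
  exact h1.trans_le (Nat.pow_le_pow_right (by norm_num) h2)

lemma JJ_pow (y : ℕ) (hy : 2 ≤ y) : 2 ^ JJ y ≤ 2 * Nat.log 2 y := by
  have h0 : Nat.log 2 y ≠ 0 := by
    have : 0 < Nat.log 2 y := Nat.log_pos (by norm_num) hy
    omega
  unfold JJ
  rw [pow_succ]
  have := Nat.pow_log_le_self 2 h0
  omega

lemma JJ_le (y : ℕ) (hy : 2 ≤ y) : 2 ^ 2 ^ JJ y ≤ y ^ 2 := by
  calc 2 ^ 2 ^ JJ y ≤ 2 ^ (2 * Nat.log 2 y) := Nat.pow_le_pow_right (by norm_num) (JJ_pow y hy)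
    _ = (2 ^ Nat.log 2 y) ^ 2 := by rw [← pow_mul, mul_comm]
    _ ≤ y ^ 2 := Nat.pow_le_pow_left (Nat.pow_log_le_self 2 (by omega)) 2

/-- the primes `p ≤ y` that divide neither `2 b` nor `mo` -/
def pb (b mo y : ℕ) : Finset ℕ := (Icc 1 y).filter (fun p => p.Prime ∧ ¬ p ∣ 2 * b ∧ ¬ p ∣ mo)

lemma mem_pb {b mo y p : ℕ} : p ∈ pb b mo y ↔ p ≤ y ∧ p.Prime ∧ ¬ p ∣ 2 * b ∧ ¬ p ∣ mo := by
  unfold pb
  rw [mem_filter, mem_Icc]
  constructor
  · rintro ⟨⟨_, h1⟩, h2⟩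
    exact ⟨h1, h2⟩
  · rintro ⟨h1, h2⟩
    exact ⟨⟨h2.1.one_le, h1⟩, h2⟩

lemma prod_inj (S S' : Finset ℕ) (hS : ∀ p ∈ S, p.Prime) (hS' : ∀ p ∈ S', p.Prime) (h : ∏ p ∈ S, p = ∏ p ∈ S', p) : S = S' := by
  have h2 := Nat.primeFactors_prod hS
  have h3 := Nat.primeFactors_prod hS'
  rw [← h2, ← h3]
  exact congrArg Nat.primeFactors h

/-- the sum over sets of primes -/
lemma sum_inj (P T0 : Finset ℕ) (hP : ∀ p ∈ P, p.Prime) (hT0 : ∀ p ∈ T0, p.Prime) (hd : Disjoint T0 P) (mo D : ℕ) (hmo : 1 ≤ mo)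
    (F : ℕ → Prop) [DecidablePred F] (hF : ∀ T ⊆ P, F (mo * ∏ p ∈ T0 ∪ T, p)) (f : ℕ → ℝ) (hf : ∀ d, 0 ≤ f d) :
    ∑ T ∈ P.powerset.filter (fun T : Finset ℕ => ∏ p ∈ T, p ≤ D), f (mo * ∏ p ∈ T0 ∪ T, p) ≤
      ∑ d ∈ (Icc 1 (mo * (∏ p ∈ T0, p) * D)).filter F, f d := by
  classical
  have hK : 0 < ∏ p ∈ T0, p := Nat.pos_of_ne_zero (prod_ne_zero_iff.2 fun p hp => (hT0 p hp).ne_zero)
  have hinj : Set.InjOn (fun T : Finset ℕ => mo * ∏ p ∈ T0 ∪ T, p) (P.powerset.filter (fun T : Finset ℕ => ∏ p ∈ T, p ≤ D) : Set (Finset ℕ)) := by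
    intro T hT T' hT' h
    rw [mem_coe, mem_filter, mem_powerset] at hT hT'
    simp only at h
    have h1 := Nat.eq_of_mul_eq_mul_left hmo h
    rw [prod_union (disjoint_of_subset_right hT.1 hd), prod_union (disjoint_of_subset_right hT'.1 hd)] at h1
    have h2 := Nat.eq_of_mul_eq_mul_left hK h1
    exact prod_inj T T' (fun p hp => hP p (hT.1 hp)) (fun p hp => hP p (hT'.1 hp)) h2
  rw [← sum_image (f := f) hinj]
  apply sum_le_sum_of_subset_of_nonneg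
  · intro d hd'
    rw [mem_image] at hd'
    obtain ⟨T, hT, rfl⟩ := hd'
    rw [mem_filter, mem_powerset] at hT
    rw [mem_filter, mem_Icc]
    refine ⟨⟨?_, ?_⟩, hF T hT.1⟩
    · apply Nat.mul_pos hmo
      apply Nat.pos_of_ne_zero
      rw [prod_ne_zero_iff]
      intro p hp
      rcases mem_union.1 hp with h | h
      · exact (hT0 p h).ne_zero
      · exact (hP p (hT.1 h)).ne_zero
    · rw [prod_union (disjoint_of_subset_right hT.1 hd), ← mul_assoc]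
      exact Nat.mul_le_mul_left _ hT.2
  · intro _ _ _
    exact hf _

lemma four_pow_le (mo : ℕ) (hmo : 1 ≤ mo) (T0 T : Finset ℕ) (hT0 : ∀ p ∈ T0, p.Prime) (hT : ∀ p ∈ T, p.Prime) :
    (4 : ℝ) ^ T.card ≤ ((mo * ∏ p ∈ T0 ∪ T, p).divisors.card : ℝ) ^ 2 := by
  have hTp : ∏ p ∈ T, p ≠ 0 := prod_ne_zero_iff.2 fun p hp => (hT p hp).ne_zero
  have hUp : ∏ p ∈ T0 ∪ T, p ≠ 0 := by
    rw [prod_ne_zero_iff]
    intro p hp
    rcases mem_union.1 hp with h | h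
    · exact (hT0 p h).ne_zero
    · exact (hT p h).ne_zero
  have h1 : 2 ^ T.card ≤ (∏ p ∈ T, p).divisors.card := by
    have h2 : (∏ p ∈ T, p).primeFactors.card ≤ ArithmeticFunction.cardDistinctFactors (∏ p ∈ T, p) := by
      rw [ArithmeticFunction.cardDistinctFactors_apply, Nat.primeFactors, List.card_toFinset]
    have h3 := Nat.primeFactors_prod hT
    have h4 : ((∏ p ∈ T, p).primeFactors.powerset).card ≤ (∏ p ∈ T, p).divisors.card := by
      apply card_le_card_of_injOn (fun U => ∏ p ∈ U, p)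
      · intro U hU
        rw [mem_coe, mem_powerset, h3] at hU
        rw [mem_coe, Nat.mem_divisors]
        exact ⟨prod_dvd_prod_of_subset _ _ _ hU, hTp⟩
      · intro U hU U' hU' h
        rw [mem_coe, mem_powerset, h3] at hU hU'
        exact prod_inj U U' (fun p hp => hT p (hU hp)) (fun p hp => hT p (hU' hp)) h
    rw [card_powerset, h3] at h4
    exact h4
  have h5 : (∏ p ∈ T, p).divisors.card ≤ (mo * ∏ p ∈ T0 ∪ T, p).divisors.card := by
    apply card_le_card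
    apply Nat.divisors_subset_of_dvd (Nat.mul_ne_zero (by omega) hUp)
    exact (prod_dvd_prod_of_subset _ _ _ subset_union_right).trans (dvd_mul_left _ _)
  have h6 : ((2 : ℝ) ^ T.card) ≤ ((mo * ∏ p ∈ T0 ∪ T, p).divisors.card : ℝ) := by exact_mod_cast h1.trans h5
  calc (4 : ℝ) ^ T.card = ((2 : ℝ) ^ T.card) ^ 2 := by rw [← pow_mul, mul_comm, pow_mul]; norm_num
    _ ≤ _ := pow_le_pow_left₀ (by positivity) h6 2

end Pool.Agent.TH872.PF
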