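import Pool.Agent.TH872.PF.A4

/-! The fundamental lemma for palindromes: the core inequality. -/

set_option autoImplicit false

namespace Pool.Agent.TH872.PF

open Finset Filter Topology

/-- the product of the primes up to `z` -/
def K0 (z : ℕ) : ℕ := ∏ p ∈ (Icc 1 z).filter Nat.Prime, p

lemma K0_pos (z : ℕ) : 1 ≤ K0 z :=
  Nat.pos_of_ne_zero (prod_ne_zero_iff.2 fun _ hp => (mem_filter.1 hp).2.ne_zero)

lemma sub_K0 (z : ℕ) (T : Finset ℕ) (hT : ∀ p ∈ T, p.Prime ∧ p ≤ z) : ∏ p ∈ T, p ≤ K0 z := by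
  unfold K0
  apply prod_le_prod_of_subset_of_one_le'
  · intro p hp
    obtain ⟨h1, h2⟩ := hT p hp
    rw [mem_filter, mem_Icc]
    exact ⟨⟨h1.one_le, h2⟩, h1⟩
  · intro p hp _
    exact (mem_filter.1 hp).2.one_le

open Classical in
/-- the number of the sifted elements -/
noncomputable def cntOm (b L J N0 mo a y : ℕ) (Om : ℕ → Finset ℕ) : ℝ :=
  (((univ : Finset (Fin L → Fin b)).filter (fun m => vv b L J N0 m ≡ a [MOD mo] ∧ ∀ p ∈ pb b mo y, vv b L J N0 m % p ∉ Om p)).card : ℝ)

/-- the expected number -/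
noncomputable def mainOm (b L mo y : ℕ) (Om : ℕ → Finset ℕ) : ℝ :=
  (b : ℝ) ^ L / mo * ∏ p ∈ pb b mo y, (1 - ((Om p).card : ℝ) / p)

set_option maxHeartbeats 1000000 in
open Classical in
theorem core : ∃ C0 : ℕ, 1 ≤ C0 ∧ ∀ b : ℕ, 2 ≤ b → ∀ bb : ℕ, C0 ≤ bb → ∀ L J N0 mo a y : ℕ, mo.Coprime (2 * b) → 1 ≤ mo →
    ∀ Om : ℕ → Finset ℕ, (∀ p ∈ pb b mo y, Om p ⊆ range p ∧ (Om p).card ≤ 4) →
    |cntOm b L J N0 mo a y Om - mainOm b L mo y Om| ≤ (1 / 2 : ℝ) ^ bb * mainOm b L mo y Om +
      ((JJ y : ℝ) + 2) * ((K0 C0 : ℝ) * ∑ q ∈ (Icc 1 (mo * K0 C0 * (2 ^ 2 ^ JJ y) ^ (C0 * bb))).filter (fun q => q.Coprime (2 * b)),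
        (q.divisors.card : ℝ) ^ 2 * EE b L q) := by
  obtain ⟨C0, hC0, hFL⟩ := Pool.Agent.H20R2.fLem 4
  refine ⟨C0, hC0, ?_⟩
  intro b hb bb hbb L J N0 mo a y hmo hmo1 Om hOm
  have hb0 : 0 < b := by omega
  set z0 := C0 with hz0
  set Jy := JJ y with hJy
  set D : ℕ := (2 ^ 2 ^ Jy) ^ (C0 * bb) with hD
  set T0 : Finset ℕ := (pb b mo y).filter (fun p => p ≤ z0) with hT0
  set P : Finset ℕ := (pb b mo y).filter (fun p => z0 < p) with hP
  have hyY : y < 2 ^ 2 ^ Jy := JJ_lt y
  have hPp : ∀ p ∈ P, p.Prime ∧ z0 < p ∧ p ≤ 2 ^ 2 ^ Jy := by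
    intro p hp
    rw [hP, mem_filter, mem_pb] at hp
    exact ⟨hp.1.2.1, hp.2, hp.1.1.trans hyY.le⟩
  have hT0p : ∀ p ∈ T0, p.Prime ∧ p ≤ z0 := by
    intro p hp
    rw [hT0, mem_filter, mem_pb] at hp
    exact ⟨hp.1.2.1, hp.2⟩
  have hpb : pb b mo y = T0 ∪ P := by
    ext p
    rw [mem_union, hT0, hP, mem_filter, mem_filter]
    constructor
    · intro h
      rcases Nat.lt_or_ge z0 p with h1 | h1
      · exact Or.inr ⟨h, h1⟩
      · exact Or.inl ⟨h, h1⟩
    · rintro (h | h)
      · exact h.1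
      · exact h.1
  have hdisj : Disjoint T0 P := by
    rw [disjoint_left]
    intro p hp hp'
    have h1 := (hT0p p hp).2
    have h2 := (hPp p hp').2.1
    omega
  have hfac : ∀ p ∈ pb b mo y, 0 ≤ 1 - ((Om p).card : ℝ) / p := by
    intro p hp
    have hp0 : (0 : ℝ) < p := by exact_mod_cast (mem_pb.1 hp).2.1.pos
    have h1 : (Om p).card ≤ p := by
      have := card_le_card (hOm p hp).1
      rwa [card_range] at this
    have h2 : ((Om p).card : ℝ) / p ≤ 1 := by
      rw [div_le_one hp0]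
      exact_mod_cast h1
    linarith
  set A0 : ℝ := ∏ p ∈ T0, (1 - ((Om p).card : ℝ) / p) with hA0
  have hA00 : 0 ≤ A0 := prod_nonneg fun p hp => hfac p (mem_filter.1 hp).1
  set Ω : Finset ℕ := ((S0 b L J N0).filter (fun n => n ≡ a [MOD mo])).filter (fun n => ∀ p ∈ T0, n % p ∉ Om p) with hΩ
  obtain ⟨hit, hhit⟩ : ∃ hit : ℕ → ℕ → Prop, hit = fun p n => n % p ∈ Om p := ⟨_, rfl⟩
  have hht : ∀ p n, hit p n ↔ n % p ∈ Om p := fun p n => by rw [hhit]
  have hcop : ∀ p ∈ pb b mo y, p.Coprime (2 * b) := by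
    intro p hp
    obtain ⟨_, h1, h2, _⟩ := mem_pb.1 hp
    exact (Nat.Prime.coprime_iff_not_dvd h1).2 h2
  have key := hFL bb Jy z0 P (fun p => ((Om p).card : ℝ) / p) hbb le_rfl hPp (fun p hp => by
      have hp1 : (1 : ℝ) < p := by exact_mod_cast (hPp p hp).1.one_lt
      refine ⟨div_nonneg (Nat.cast_nonneg _) (Nat.cast_nonneg _), ?_⟩
      push_cast
      apply div_le_div₀ (by norm_num) (by exact_mod_cast (hOm p (mem_filter.1 hp).1).2) (by linarith) (by linarith))
    Ω (w0 b L J N0) hit ((b : ℝ) ^ L / mo * A0)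
    (fun T => (K0 C0 : ℝ) * (((mo * ∏ p ∈ T0 ∪ T, p).divisors.card : ℝ) ^ 2 * EE b L (mo * ∏ p ∈ T0 ∪ T, p)))
    (fun _ _ => Nat.cast_nonneg _) (by positivity) (by
      intro T hT hTD
      have hTp : ∀ p ∈ T, p.Prime := fun p hp => (hPp p (hT hp)).1
      have hdT : Disjoint T0 T := disjoint_of_subset_right hT hdisj
      have hTz : ∀ p ∈ T, ¬ p ≤ z0 := fun p hp => by have := (hPp p (hT hp)).2.1; omega
      have hsub : ∀ p ∈ T0 ∪ T, p ∈ pb b mo y := by
        intro p hp
        rw [hpb, mem_union]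
        rcases mem_union.1 hp with h | h
        · exact Or.inl h
        · exact Or.inr (hT h)
      have h3 := cntS hb0 L J N0 mo a hmo (T0 ∪ T) (fun p hp =>
        ⟨(mem_pb.1 (hsub p hp)).2.1, (mem_pb.1 (hsub p hp)).2.2.2, hcop p (hsub p hp)⟩)
        (fun p => if p ≤ z0 then range p \ Om p else Om p) (by
          intro p hp
          split_ifs with h
          · exact sdiff_subset
          · exact (hOm p (hsub p hp)).1)
      have c1 : ∀ p ∈ T0, (((if p ≤ z0 then range p \ Om p else Om p : Finset ℕ)).card : ℝ) = p - (Om p).card := by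
        intro p hp
        rw [if_pos (hT0p p hp).2, card_sdiff_of_subset (hOm p (hsub p (mem_union_left _ hp))).1, card_range, Nat.cast_sub]
        have := card_le_card (hOm p (hsub p (mem_union_left _ hp))).1
        rwa [card_range] at this
      have c2 : ∀ p ∈ T, (((if p ≤ z0 then range p \ Om p else Om p : Finset ℕ)).card : ℝ) = (Om p).card := by
        intro p hp
        rw [if_neg (hTz p hp)]
      rw [prod_union hdT, prod_union hdT] at h3
      have e1 : ∏ p ∈ T0, ((((if p ≤ z0 then range p \ Om p else Om p : Finset ℕ)).card : ℝ) / p) = A0 := by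
        apply prod_congr rfl
        intro p hp
        rw [c1 p hp]
        have hp0 : (p : ℝ) ≠ 0 := by exact_mod_cast (hT0p p hp).1.ne_zero
        field_simp
      have e2 : ∏ p ∈ T, ((((if p ≤ z0 then range p \ Om p else Om p : Finset ℕ)).card : ℝ) / p) = ∏ p ∈ T, (((Om p).card : ℝ) / p) := by
        apply prod_congr rfl
        intro p hp
        rw [c2 p hp]
      have e3 : ∏ p ∈ T0, (((if p ≤ z0 then range p \ Om p else Om p : Finset ℕ)).card : ℝ) ≤ K0 C0 := by
        have h4 : ∏ p ∈ T0, (((if p ≤ z0 then range p \ Om p else Om p : Finset ℕ)).card : ℝ) ≤ ∏ p ∈ T0, (p : ℝ) := by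
          apply prod_le_prod (fun _ _ => Nat.cast_nonneg _)
          intro p hp
          rw [c1 p hp]
          have : (0 : ℝ) ≤ (Om p).card := Nat.cast_nonneg _
          linarith
        refine h4.trans ?_
        have h5 : ((∏ p ∈ T0, p : ℕ) : ℝ) ≤ K0 C0 := by exact_mod_cast sub_K0 C0 T0 hT0p
        rwa [Nat.cast_prod] at h5
      have e4 : ∏ p ∈ T, (((if p ≤ z0 then range p \ Om p else Om p : Finset ℕ)).card : ℝ) ≤ (4 : ℝ) ^ T.card := by
        rw [← prod_const]
        apply prod_le_prod (fun _ _ => Nat.cast_nonneg _)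
        intro p hp
        rw [c2 p hp]
        exact_mod_cast (hOm p (hsub p (mem_union_right _ hp))).2
      rw [e1, e2] at h3
      have e5 : Ω.filter (fun n => ∀ p ∈ T, hit p n) =
          ((S0 b L J N0).filter (fun n => n ≡ a [MOD mo])).filter (fun n => ∀ p ∈ T0 ∪ T, n % p ∈ (if p ≤ z0 then range p \ Om p else Om p : Finset ℕ)) := by
        rw [hΩ, filter_filter]
        apply filter_congr
        intro n _
        constructor
        · rintro ⟨h5, h6⟩ p hp
          rcases mem_union.1 hp with h | h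
          · rw [if_pos (hT0p p h).2, Finset.mem_sdiff, mem_range]
            exact ⟨Nat.mod_lt _ (hT0p p h).1.pos, h5 p h⟩
          · rw [if_neg (hTz p h)]
            exact (hht p n).1 (h6 p h)
        · intro h5
          constructor
          · intro p hp
            have h6 := h5 p (mem_union_left _ hp)
            rw [if_pos (hT0p p hp).2, Finset.mem_sdiff] at h6
            exact h6.2
          · intro p hp
            have h6 := h5 p (mem_union_right _ hp)
            rw [if_neg (hTz p hp)] at h6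
            exact (hht p n).2 h6
      rw [e5, mul_assoc]
      refine h3.trans ?_
      have h6 := four_pow_le mo hmo1 T0 T (fun p hp => (hT0p p hp).1) hTp
      have h7 := EE_nonneg b L (mo * ∏ p ∈ T0 ∪ T, p)
      have h8 : (∏ p ∈ T0, (((if p ≤ z0 then range p \ Om p else Om p : Finset ℕ)).card : ℝ)) *
          (∏ p ∈ T, (((if p ≤ z0 then range p \ Om p else Om p : Finset ℕ)).card : ℝ)) ≤
          (K0 C0 : ℝ) * ((mo * ∏ p ∈ T0 ∪ T, p).divisors.card : ℝ) ^ 2 :=
        mul_le_mul e3 (e4.trans h6) (prod_nonneg fun _ _ => Nat.cast_nonneg _) (Nat.cast_nonneg _)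
      calc _ ≤ ((K0 C0 : ℝ) * ((mo * ∏ p ∈ T0 ∪ T, p).divisors.card : ℝ) ^ 2) * EE b L (mo * ∏ p ∈ T0 ∪ T, p) :=
            mul_le_mul_of_nonneg_right h8 h7
        _ = _ := by ring)
  have f1 : ∑ m ∈ Ω.filter (fun m => ∀ p ∈ P, ¬ hit p m), w0 b L J N0 m = cntOm b L J N0 mo a y Om := by
    rw [hΩ, filter_filter, filter_filter, wsum]
    unfold cntOm
    congr 2
    apply filter_congr
    intro m _
    rw [hpb]
    constructor
    · rintro ⟨h5, h6, h7⟩
      refine ⟨h5, fun p hp => ?_⟩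
      rcases mem_union.1 hp with h | h
      · exact h6 p h
      · exact fun h8 => h7 p h ((hht p _).2 h8)
    · rintro ⟨h5, h6⟩
      exact ⟨h5, fun p hp => h6 p (mem_union_left _ hp), fun p hp h8 => h6 p (mem_union_right _ hp) ((hht p _).1 h8)⟩
  have f2 : (b : ℝ) ^ L / mo * A0 * ∏ p ∈ P, (1 - ((Om p).card : ℝ) / p) = mainOm b L mo y Om := by
    unfold mainOm
    rw [hpb, prod_union hdisj, mul_assoc]
  rw [f1, f2] at key
  refine key.trans ?_
  apply add_le_add le_rfl
  apply mul_le_mul_of_nonneg_left _ (by positivity)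
  rw [← mul_sum]
  apply mul_le_mul_of_nonneg_left _ (Nat.cast_nonneg _)
  refine (sum_inj P T0 (fun p hp => (hPp p hp).1) (fun p hp => (hT0p p hp).1) hdisj mo D hmo1
    (fun q => q.Coprime (2 * b)) (by
      intro T hT
      apply Nat.Coprime.mul_left hmo
      apply Nat.Coprime.prod_left
      intro p hp
      apply hcop
      rw [hpb, mem_union]
      rcases mem_union.1 hp with h | h
      · exact Or.inl h
      · exact Or.inr (hT h))
    (fun q => (q.divisors.card : ℝ) ^ 2 * EE b L q) (fun q => mul_nonneg (pow_nonneg (Nat.cast_nonneg _) 2) (EE_nonneg b L q))).trans ?_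
  apply sum_le_sum_of_subset_of_nonneg
  · apply filter_subset_filter
    apply Icc_subset_Icc_right
    exact Nat.mul_le_mul_right _ (Nat.mul_le_mul_left _ (sub_K0 C0 T0 hT0p))
  · intro q _ _
    exact mul_nonneg (pow_nonneg (Nat.cast_nonneg _) 2) (EE_nonneg b L q)

end Pool.Agent.TH872.PF
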