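import Pool.Agent.TH872.PF.A5

/-! The fundamental lemma for palindromes: asymptotic form. -/

set_option autoImplicit false

namespace Pool.Agent.TH872.PF

open Finset Filter Topology

lemma JJ_le' (y : ℕ) : 2 ^ 2 ^ JJ y ≤ (y + 2) ^ 2 := by
  rcases Nat.lt_or_ge y 2 with h | h
  · interval_cases y
    · simp [JJ]
    · simp [JJ]
  · exact (JJ_le y h).trans (Nat.pow_le_pow_left (by omega) 2)

lemma mainOm_nonneg (b L mo y : ℕ) (Om : ℕ → Finset ℕ) (hOm : ∀ p ∈ pb b mo y, Om p ⊆ range p) :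
    0 ≤ mainOm b L mo y Om := by
  unfold mainOm
  apply mul_nonneg (div_nonneg (pow_nonneg (Nat.cast_nonneg _) _) (Nat.cast_nonneg _))
  apply prod_nonneg
  intro p hp
  have hp0 : (0 : ℝ) < p := by exact_mod_cast (mem_pb.1 hp).2.1.pos
  have h1 : (Om p).card ≤ p := by
    have := card_le_card (hOm p hp)
    rwa [card_range] at this
  have h2 : ((Om p).card : ℝ) / p ≤ 1 := by
    rw [div_le_one hp0]
    exact_mod_cast h1
  linarith

theorem fund {b : ℕ} (hb : 2 ≤ b) {κ : ℝ} (hκ : Adm b κ) (ε : ℝ) (hε : 0 < ε) (A B : ℕ) : ∃ δ : ℝ, 0 < δ ∧ ∀ᶠ L : ℕ in atTop,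
    ∀ J N0 mo a y : ℕ, mo.Coprime (2 * b) → 1 ≤ mo → (mo : ℝ) ≤ (L : ℝ) ^ B → (y : ℝ) ≤ (b : ℝ) ^ (δ * L) →
    ∀ Om : ℕ → Finset ℕ, (∀ p ∈ pb b mo y, Om p ⊆ range p ∧ (Om p).card ≤ 4) →
    |cntOm b L J N0 mo a y Om - mainOm b L mo y Om| ≤ ε * mainOm b L mo y Om + (b : ℝ) ^ L / (L : ℝ) ^ A := by
  obtain ⟨C0, hC0, hcore⟩ := core
  obtain ⟨b1, hb1⟩ := exists_pow_lt_of_lt_one hε (show (1 / 2 : ℝ) < 1 by norm_num)
  obtain ⟨bb, hbb, hbε⟩ : ∃ bb, C0 ≤ bb ∧ (1 / 2 : ℝ) ^ bb ≤ ε := ⟨max C0 b1, le_max_left _ _,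
    (pow_le_pow_of_le_one (by norm_num) (by norm_num) (le_max_right _ _)).trans hb1.le⟩
  have hκ0 := hκ.1
  have hκ1 := hκ.2.1
  have hbR : (2 : ℝ) ≤ b := by exact_mod_cast hb
  have hb0 : (0 : ℝ) < b := by linarith
  have hb1' : (1 : ℝ) < b := by linarith
  have hCb : 1 ≤ C0 * bb := Nat.mul_pos hC0 (hC0.trans hbb)
  have hCbR : (1 : ℝ) ≤ ((C0 * bb : ℕ) : ℝ) := by exact_mod_cast hCb
  obtain ⟨cc, hcc⟩ : ∃ cc : ℝ, cc = ((C0 * bb : ℕ) : ℝ) := ⟨_, rfl⟩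
  rw [← hcc] at hCbR
  have hlb : 0 < Real.log b := Real.log_pos hb1'
  obtain ⟨K, hK⟩ : ∃ K : ℝ, K = (K0 C0 : ℝ) * 9 ^ (C0 * bb) := ⟨_, rfl⟩
  have hK0' : (1 : ℝ) ≤ K0 C0 := by exact_mod_cast K0_pos C0
  have hKpos : 0 < K := by rw [hK]; positivity
  refine ⟨κ / (4 * cc), by positivity, ?_⟩
  -- the level
  have hlev : ∀ᶠ L : ℕ in atTop, (L : ℝ) ^ B * K ≤ (b : ℝ) ^ (κ / 2 * L) := by
    have h1 := tendsto_pow_const_div_const_pow_of_one_lt B (r := (b : ℝ) ^ (κ / 2)) (Real.one_lt_rpow hb1' (by positivity))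
    have h2 := h1.eventually (gt_mem_nhds (show (0 : ℝ) < 1 / K by positivity))
    filter_upwards [h2] with L hL
    have h3 : (0 : ℝ) < ((b : ℝ) ^ (κ / 2)) ^ L := by positivity
    rw [div_lt_div_iff₀ h3 hKpos] at hL
    rw [Real.rpow_mul hb0.le, Real.rpow_natCast]
    linarith
  have hsum := EE_sum hb hκ (A + 2)
  have hLbig : ∀ᶠ L : ℕ in atTop, (K0 C0 : ℝ) * (2 * Real.log b + 3) ≤ (L : ℝ) :=
    tendsto_natCast_atTop_atTop.eventually_ge_atTop _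
  filter_upwards [hlev, hsum, hLbig, eventually_ge_atTop 1] with L h1 h2 h3 h4
  intro J N0 mo a y hmo hmo1 hmoL hy Om hOm
  have hL1 : (1 : ℝ) ≤ L := by exact_mod_cast h4
  have hL0 : (0 : ℝ) < L := by linarith
  refine (hcore b hb bb hbb L J N0 mo a y hmo hmo1 Om hOm).trans ?_
  have hm0 := mainOm_nonneg b L mo y Om (fun p hp => (hOm p hp).1)
  apply add_le_add (mul_le_mul_of_nonneg_right hbε hm0)
  -- the level of the sum
  set δ := κ / (4 * cc) with hδ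
  have hx1 : (1 : ℝ) ≤ (b : ℝ) ^ (δ * L) := Real.one_le_rpow hb1'.le (by positivity)
  have hDle : ((mo * K0 C0 * (2 ^ 2 ^ JJ y) ^ (C0 * bb) : ℕ) : ℝ) ≤ (b : ℝ) ^ (κ * L) := by
    have e1 : (((2 ^ 2 ^ JJ y) ^ (C0 * bb) : ℕ) : ℝ) ≤ 9 ^ (C0 * bb) * (b : ℝ) ^ (κ / 2 * L) := by
      have e2 : (2 ^ 2 ^ JJ y) ^ (C0 * bb) ≤ ((y + 2) ^ 2) ^ (C0 * bb) := Nat.pow_le_pow_left (JJ_le' y) _
      have e3 : (((2 ^ 2 ^ JJ y) ^ (C0 * bb) : ℕ) : ℝ) ≤ (((y + 2) ^ 2) ^ (C0 * bb) : ℕ) := by exact_mod_cast e2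
      refine e3.trans ?_
      push_cast
      have e4 : (y : ℝ) + 2 ≤ 3 * (b : ℝ) ^ (δ * L) := by linarith
      have e5 : ((y : ℝ) + 2) ^ 2 ≤ 9 * (b : ℝ) ^ (δ * L * 2) := by
        calc ((y : ℝ) + 2) ^ 2 ≤ (3 * (b : ℝ) ^ (δ * L)) ^ 2 := pow_le_pow_left₀ (by positivity) e4 2
          _ = 9 * ((b : ℝ) ^ (δ * L)) ^ 2 := by ring
          _ = 9 * (b : ℝ) ^ (δ * L * 2) := by
              rw [Real.rpow_mul hb0.le (δ * L) 2]
              norm_num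
      calc (((y : ℝ) + 2) ^ 2) ^ (C0 * bb) ≤ (9 * (b : ℝ) ^ (δ * L * 2)) ^ (C0 * bb) :=
            pow_le_pow_left₀ (by positivity) e5 _
        _ = 9 ^ (C0 * bb) * ((b : ℝ) ^ (δ * L * 2)) ^ (C0 * bb) := mul_pow _ _ _
        _ = 9 ^ (C0 * bb) * (b : ℝ) ^ (κ / 2 * L) := by
            rw [← Real.rpow_natCast ((b : ℝ) ^ (δ * L * 2)), ← Real.rpow_mul hb0.le, ← hcc]
            congr 2
            rw [hδ]
            field_simp
            ring
    push_cast at e1 ⊢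
    have e6 : (b : ℝ) ^ (κ * L) = (b : ℝ) ^ (κ / 2 * L) * (b : ℝ) ^ (κ / 2 * L) := by
      rw [← Real.rpow_add hb0]
      congr 1
      ring
    rw [e6]
    calc (mo : ℝ) * K0 C0 * (2 ^ 2 ^ JJ y) ^ (C0 * bb) ≤ ((L : ℝ) ^ B * K0 C0) * (9 ^ (C0 * bb) * (b : ℝ) ^ (κ / 2 * L)) := by
          apply mul_le_mul (mul_le_mul_of_nonneg_right hmoL (by linarith)) e1 (by positivity) (by positivity)
      _ = ((L : ℝ) ^ B * K) * (b : ℝ) ^ (κ / 2 * L) := by rw [hK]; ring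
      _ ≤ _ := mul_le_mul_of_nonneg_right h1 (by positivity)
  have hsub : ∑ q ∈ (Icc 1 (mo * K0 C0 * (2 ^ 2 ^ JJ y) ^ (C0 * bb))).filter (fun q => q.Coprime (2 * b)),
        (q.divisors.card : ℝ) ^ 2 * EE b L q ≤ (b : ℝ) ^ L / (L : ℝ) ^ (A + 2) := by
    refine le_trans ?_ h2
    apply sum_le_sum_of_subset_of_nonneg
    · apply filter_subset_filter
      apply Icc_subset_Icc_right
      exact Nat.le_floor hDle
    · intro q _ _
      exact mul_nonneg (pow_nonneg (Nat.cast_nonneg _) 2) (EE_nonneg b L q)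
  -- the number of steps
  have hJ : (JJ y : ℝ) + 2 ≤ L * (2 * Real.log b + 3) := by
    have e1 : JJ y ≤ Nat.log 2 y + 1 := by
      unfold JJ
      have := Nat.log_le_self 2 (Nat.log 2 y)
      omega
    have e2 : (Nat.log 2 y : ℝ) ≤ L * (2 * Real.log b) := by
      rcases Nat.eq_zero_or_pos y with h0 | h0
      · rw [h0]; simp; positivity
      have e1 : 2 ^ Nat.log 2 y ≤ y := Nat.pow_log_le_self 2 h0.ne'
      have e2 : (2 : ℝ) ^ Nat.log 2 y ≤ (b : ℝ) ^ (δ * L) := by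
        have : (2 : ℝ) ^ Nat.log 2 y ≤ y := by exact_mod_cast e1
        exact this.trans hy
      have e3 := Real.log_le_log (by positivity) e2
      rw [Real.log_pow, Real.log_rpow hb0] at e3
      have hl2 : 1 / 2 ≤ Real.log 2 := by
        have := Real.log_two_gt_d9
        linarith
      have hδ1 : δ ≤ 1 := by
        rw [hδ, div_le_one (by positivity)]
        linarith
      have e5 : δ * L * Real.log b ≤ 1 * L * Real.log b := by
        apply mul_le_mul_of_nonneg_right _ hlb.le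
        apply mul_le_mul_of_nonneg_right hδ1 (by linarith)
      have e6 : 1 * (L : ℝ) * Real.log b ≤ L * (2 * Real.log b) * Real.log 2 := by
        have : 0 ≤ (L : ℝ) * Real.log b := by positivity
        nlinarith
      exact le_of_mul_le_mul_right (e3.trans (e5.trans e6)) (by linarith)
    have e3 : (JJ y : ℝ) ≤ Nat.log 2 y + 1 := by exact_mod_cast e1
    nlinarith
  calc ((JJ y : ℝ) + 2) * ((K0 C0 : ℝ) * ∑ q ∈ (Icc 1 (mo * K0 C0 * (2 ^ 2 ^ JJ y) ^ (C0 * bb))).filter (fun q => q.Coprime (2 * b)),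
        (q.divisors.card : ℝ) ^ 2 * EE b L q) ≤ (L * (2 * Real.log b + 3)) * ((K0 C0 : ℝ) * ((b : ℝ) ^ L / (L : ℝ) ^ (A + 2))) := by
        apply mul_le_mul hJ (mul_le_mul_of_nonneg_left hsub (by linarith)) _ (by positivity)
        apply mul_nonneg (by linarith)
        apply sum_nonneg
        intro q _
        exact mul_nonneg (pow_nonneg (Nat.cast_nonneg _) 2) (EE_nonneg b L q)
    _ = L * ((K0 C0 : ℝ) * (2 * Real.log b + 3)) * ((b : ℝ) ^ L / (L : ℝ) ^ (A + 2)) := by ring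
    _ ≤ L * L * ((b : ℝ) ^ L / (L : ℝ) ^ (A + 2)) := by
        apply mul_le_mul_of_nonneg_right _ (by positivity)
        exact mul_le_mul_of_nonneg_left h3 hL0.le
    _ = (b : ℝ) ^ L / (L : ℝ) ^ A := by
        rw [pow_add]
        field_simp

end Pool.Agent.TH872.PF
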