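import Pool.Agent.TH872.PF.A6

/-! Palindromes given by their digits. -/

set_option autoImplicit false

namespace Pool.Agent.TH872.PF

open Finset Filter Topology

/-- the integer with the digits `w`, `u` reversed, `c`, `u`, `w` reversed -/
def pal (b L : ℕ) (w : List ℕ) (u : Fin L → Fin b) (c : ℕ) : ℕ :=
  Nat.ofDigits b (w ++ (List.ofFn fun i => (u i : ℕ)).reverse ++ [c] ++ (List.ofFn fun i => (u i : ℕ)) ++ w.reverse)

lemma ofD_ofFn (b : ℕ) : ∀ (L : ℕ) (f : Fin L → ℕ), Nat.ofDigits b (List.ofFn f) = ∑ i : Fin L, f i * b ^ (i : ℕ)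
  | 0, f => by simp
  | L + 1, f => by
    rw [List.ofFn_succ, Nat.ofDigits_cons, ofD_ofFn b L, Fin.sum_univ_succ, mul_sum]
    simp only [Fin.val_zero, pow_zero, mul_one, Fin.val_succ, Nat.cast_id]
    congr 1
    apply sum_congr rfl
    intro i _
    ring

lemma ofD_rev (b : ℕ) : ∀ (L : ℕ) (f : Fin L → ℕ), Nat.ofDigits b (List.ofFn f).reverse = ∑ i : Fin L, f i * b ^ (L - 1 - (i : ℕ))
  | 0, f => by simp
  | L + 1, f => by
    rw [List.ofFn_succ, List.reverse_cons, Nat.ofDigits_append, ofD_rev b L, Fin.sum_univ_succ]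
    simp only [List.length_reverse, List.length_ofFn, Nat.ofDigits_singleton, Fin.val_zero, Fin.val_succ]
    rw [add_comm, mul_comm (b ^ L)]
    congr 1
    apply sum_congr rfl
    intro i _
    congr 2
    omega

lemma pal_vv (b L J : ℕ) (w : List ℕ) (hw : w.length = J + 1) (u : Fin L → Fin b) (c : ℕ) :
    pal b L w u c = vv b L J (Nat.ofDigits b w + b ^ (2 * L + J + 2) * Nat.ofDigits b w.reverse) u + c * b ^ (L + J + 1) := by
  have h1 : b ^ (J + 1) * ∑ i : Fin L, (u i : ℕ) * b ^ (L - 1 - (i : ℕ)) +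
      b ^ (L + J + 2) * ∑ i : Fin L, (u i : ℕ) * b ^ (i : ℕ) = b ^ J * ∑ c : Fin L, (u c : ℕ) * Pool.Agent.W89.PW.fr b L c := by
    rw [mul_sum, mul_sum, mul_sum, ← sum_add_distrib]
    apply sum_congr rfl
    intro i _
    have hi := i.2
    unfold Pool.Agent.W89.PW.fr
    have e1 : L - (i : ℕ) = L - 1 - (i : ℕ) + 1 := by omega
    rw [e1, mul_add, mul_add, pow_succ b (L - 1 - (i : ℕ)), pow_succ b J]
    rw [show L + J + 2 = J + (L + 2) by ring, pow_add b J, show L + (i : ℕ) + 2 = (L + 2) + (i : ℕ) by ring, pow_add b (L + 2)]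
    ring
  unfold pal vv
  rw [Nat.ofDigits_append, Nat.ofDigits_append, Nat.ofDigits_append, Nat.ofDigits_append, ofD_ofFn, ofD_rev]
  simp only [List.length_append, List.length_reverse, List.length_ofFn, List.length_singleton, Nat.ofDigits_singleton, hw]
  rw [← h1]
  rw [show J + 1 + L + 1 + L = 2 * L + J + 2 by ring, show J + 1 + L + 1 = L + J + 2 by ring, show J + 1 + L = L + J + 1 by ring]
  ring

lemma pal_cop (b L : ℕ) (w : List ℕ) (u : Fin L → Fin b) (c d : ℕ) (w' : List ℕ) (hw : w = d :: w') (x p : ℕ) (hp : p ∣ b) :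
    p ∣ pal b L w u c + x ↔ p ∣ d + x := by
  unfold pal
  rw [hw, List.cons_append, List.cons_append, List.cons_append, List.cons_append, Nat.ofDigits_cons, add_right_comm]
  exact (Nat.dvd_add_iff_left (Dvd.dvd.mul_right hp _)).symm

lemma pal_par (b L : ℕ) (hb : b % 2 = 1) (w : List ℕ) (u : Fin L → Fin b) (c : ℕ) : pal b L w u c % 2 = c % 2 := by
  unfold pal
  rw [Nat.ofDigits_mod, hb, Nat.ofDigits_one]
  simp only [List.sum_append, List.sum_reverse, List.sum_singleton]
  omega

/-- the residue of `- x` -/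
def neg (p x : ℕ) : ℕ := (p - x % p) % p

lemma neg_iff (p n x : ℕ) (hp : 0 < p) : p ∣ n + x ↔ n % p = neg p x := by
  unfold neg
  have hx := Nat.mod_lt x hp
  have h1 : p ∣ n + x ↔ (n + x) % p = 0 := Nat.dvd_iff_mod_eq_zero
  have hn := Nat.mod_lt n hp
  rw [h1, Nat.add_mod]
  rcases Nat.eq_zero_or_pos (x % p) with h0 | h0
  · rw [h0, add_zero, Nat.sub_zero, Nat.mod_self, Nat.mod_mod]
  · rw [Nat.mod_eq_of_lt (show p - x % p < p by omega)]
    constructor
    · intro h2
      have h3 : p ∣ n % p + x % p := Nat.dvd_of_mod_eq_zero h2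
      obtain ⟨k, hk⟩ := h3
      have h4 : k = 1 := by
        have h5 : n % p + x % p < p * 2 := by omega
        have h6 : 0 < n % p + x % p := by omega
        rw [hk] at h5 h6
        have h7 : k < 2 := Nat.lt_of_mul_lt_mul_left h5
        have h8 : 0 < k := Nat.pos_of_mul_pos_left h6
        omega
      rw [h4, mul_one] at hk
      omega
    · intro h2
      rw [h2, Nat.sub_add_cancel hx.le, Nat.mod_self]

end Pool.Agent.TH872.PF
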