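import Pool.Agent.TH872.PF.A7

/-! The size of the sets of forbidden residues. -/

set_option autoImplicit false

namespace Pool.Agent.TH872.PF

open Finset Filter Topology

lemma neg_lt (p x : ℕ) (hp : 0 < p) : neg p x < p := Nat.mod_lt _ hp

lemma neg_congr (p x y : ℕ) (hp : 0 < p) (h : neg p x = neg p y) : x ≡ y [MOD p] := by
  have h1 : (neg p x) % p = neg p x := Nat.mod_eq_of_lt (neg_lt p x hp)
  have h2 := (neg_iff p (neg p x) x hp).2 h1
  have h3 := (neg_iff p (neg p x) y hp).2 (h1.trans h)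
  have h4 : neg p x + x ≡ neg p x + y [MOD p] :=
    (Nat.modEq_zero_iff_dvd.2 h2).trans (Nat.modEq_zero_iff_dvd.2 h3).symm
  exact Nat.ModEq.add_left_cancel' _ h4

/-- the forbidden residues for the shifts in `C` -/
def OmC (C : Finset ℕ) (p : ℕ) : Finset ℕ := C.image (fun c => neg p c)

lemma OmC_sub (C : Finset ℕ) (p : ℕ) (hp : 0 < p) : OmC C p ⊆ range p := by
  intro x hx
  unfold OmC at hx
  obtain ⟨c, _, rfl⟩ := mem_image.1 hx
  exact mem_range.2 (neg_lt p c hp)

lemma OmC_card_le (C : Finset ℕ) (p : ℕ) : (OmC C p).card ≤ C.card := card_image_le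

lemma OmC_card (C : Finset ℕ) (p : ℕ) (hp : 0 < p) : (OmC C p).card = (C.image (fun c => c % p)).card := by
  have h1 : OmC C p = (C.image (fun c => c % p)).image (fun c => neg p c) := by
    unfold OmC
    rw [image_image]
    apply image_congr
    intro c _
    simp only [Function.comp]
    unfold neg
    rw [Nat.mod_mod]
  rw [h1, card_image_of_injOn]
  intro x hx y hy h
  rw [mem_coe, mem_image] at hx hy
  obtain ⟨a, _, rfl⟩ := hx
  obtain ⟨c, _, rfl⟩ := hy
  have h2 := neg_congr p _ _ hp h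
  unfold Nat.ModEq at h2
  rwa [Nat.mod_mod, Nat.mod_mod] at h2

lemma OmC_mem (C : Finset ℕ) (p n : ℕ) (hp : 0 < p) : n % p ∉ OmC C p ↔ ∀ c ∈ C, ¬ p ∣ n + c := by
  unfold OmC
  rw [mem_image]
  constructor
  · intro h c hc hd
    exact h ⟨c, hc, ((neg_iff p n c hp).1 hd).symm⟩
  · rintro h ⟨c, hc, h1⟩
    exact h c hc ((neg_iff p n c hp).2 h1.symm)

/-- multiplication by a number coprime to `p` -/
lemma card_mul (C : Finset ℕ) (p B : ℕ) (hp : p.Prime) (hB : ¬ p ∣ B) :
    ((C.image (fun c => c * B)).image (fun c => c % p)).card = (C.image (fun c => c % p)).card := by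
  have h1 : (C.image (fun c => c * B)).image (fun c => c % p) = (C.image (fun c => c % p)).image (fun c => (c * B) % p) := by
    rw [image_image, image_image]
    apply image_congr
    intro c _
    exact ((Nat.mod_modEq c p).mul_right B).symm
  rw [h1, card_image_of_injOn]
  intro x hx y hy h
  rw [mem_coe, mem_image] at hx hy
  obtain ⟨a, _, rfl⟩ := hx
  obtain ⟨c, _, rfl⟩ := hy
  have h2 : (a % p) * B ≡ (c % p) * B [MOD p] := h
  have h3 : a % p ≡ c % p [MOD p] := by
    refine Nat.ModEq.cancel_right_of_coprime ?_ h2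
    rw [Nat.gcd_comm]
    exact ((Nat.Prime.coprime_iff_not_dvd hp).2 hB).symm
  unfold Nat.ModEq at h3
  rwa [Nat.mod_mod, Nat.mod_mod] at h3

end Pool.Agent.TH872.PF
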