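import Pool.Agent.W89.Sv.Sel

/-! `GZ m ξ z ≥ (φ(m)/m) log u` for every modulus `m`. -/

set_option autoImplicit false

namespace Pool.Agent.TH872.PF

open Finset Pool.Agent.W89.Sv

/-- the multiplicative map `n ↦ 1/n` -/
noncomputable def invHom : ℕ →* ℝ where
  toFun n := (n : ℝ)⁻¹
  map_one' := by simp
  map_mul' a b := by push_cast; rw [mul_inv]

/-- the part of the radical of `n` coprime to `m` -/
def ll (m n : ℕ) : ℕ := ∏ p ∈ n.primeFactors.filter (fun p => ¬ p ∣ m), p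

theorem prime_dvd_ll {m n p : ℕ} (hn : n ≠ 0) (hp : p.Prime) (hpn : p ∣ n) (h10 : ¬ p ∣ m) :
    p ∣ ll m n :=
  Finset.dvd_prod_of_mem _ (by simp [hp, hpn, hn, h10])

theorem ll_dvd {m n : ℕ} : ll m n ∣ n :=
  (Finset.prod_dvd_prod_of_subset _ _ _ (Finset.filter_subset _ _)).trans
    (Nat.prod_primeFactors_dvd n)

theorem ll_dvd_PZ {m n z : ℕ} (hnz : n < z) : ll m n ∣ PZ m z := by
  unfold ll PZ PP
  apply Finset.prod_dvd_prod_of_subset
  intro p hp
  simp only [Finset.mem_filter, Nat.mem_primeFactors, Finset.mem_range] at hp ⊢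
  obtain ⟨⟨hp1, hp2, hp3⟩, hp4⟩ := hp
  exact ⟨lt_of_le_of_lt (Nat.le_of_dvd (Nat.pos_of_ne_zero hp3) hp2) hnz, hp1, hp4⟩

/-- `∏_{p | m} (1 - 1/p)⁻¹ = m/φ(m)` -/
theorem prod_inv_tot {m : ℕ} (hm : 0 < m) : ∏ p ∈ m.primeFactors, (1 - ((p : ℝ))⁻¹)⁻¹ = m / (m.totient : ℝ) := by
  have htot : (m.totient : ℝ) = m * ∏ p ∈ m.primeFactors, (1 - ((p : ℝ))⁻¹) := by
    have := Nat.totient_eq_mul_prod_factors m
    have h := congrArg (fun x : ℚ => (x : ℝ)) this
    push_cast at h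
    exact h
  have hmr : (m : ℝ) ≠ 0 := by exact_mod_cast hm.ne'
  rw [htot, Finset.prod_inv_distrib]
  have h1 : (m : ℝ) / (m * ∏ p ∈ m.primeFactors, (1 - ((p : ℝ))⁻¹)) = (∏ p ∈ m.primeFactors, (1 - ((p : ℝ))⁻¹))⁻¹ := by
    rw [div_mul_eq_div_div, div_self hmr, one_div]
  rw [h1]

/-- the sum over one fibre -/
theorem fibre {m : ℕ} (hm : 0 < m) (N z l : ℕ) (hl : l ∣ PZ m z) :
    ∑ n ∈ (Icc 1 N).filter (fun n => ll m n = l), ((n : ℝ))⁻¹ ≤ m / (m.totient : ℝ) * (1 / (l.totient : ℝ)) := by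
  have hl0 : l ≠ 0 := fun h => PZ_ne_zero m z (by rw [h] at hl; exact Nat.eq_zero_of_zero_dvd hl)
  have hlpos : 0 < (l : ℝ) := by positivity
  set S : Finset ℕ := m.primeFactors ∪ l.primeFactors with hS
  have hdisj : Disjoint m.primeFactors l.primeFactors := by
    rw [Finset.disjoint_left]
    intro p h1 h2
    have h3 := Nat.prime_of_mem_primeFactors h1
    exact (prime_dvd_PZ h3 ((Nat.dvd_of_mem_primeFactors h2).trans hl)).2 (Nat.dvd_of_mem_primeFactors h1)
  have hSf : S.filter Nat.Prime = S := by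
    apply Finset.filter_true_of_mem
    intro p hp
    rw [hS, Finset.mem_union] at hp
    rcases hp with hp | hp
    · exact Nat.prime_of_mem_primeFactors hp
    · exact Nat.prime_of_mem_primeFactors hp
  have hEP := (EulerProduct.summable_and_hasSum_factoredNumbers_prod_filter_prime_geometric
    (f := invHom) (by
      intro p hp
      show ‖((p : ℝ))⁻¹‖ < 1
      rw [norm_inv, Real.norm_natCast]
      exact inv_lt_one_of_one_lt₀ (by exact_mod_cast hp.one_lt)) S).2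
  rw [hSf] at hEP
  have hprod : ∏ p ∈ S, (1 - invHom p)⁻¹ = m / (m.totient : ℝ) * ∏ p ∈ l.primeFactors, (1 - ((p : ℝ))⁻¹)⁻¹ := by
    rw [hS, Finset.prod_union hdisj, ← prod_inv_tot hm]
    rfl
  rw [hprod] at hEP
  have hind : HasSum ((Nat.factoredNumbers S).indicator (fun n : ℕ => ((n : ℝ))⁻¹))
      (m / (m.totient : ℝ) * ∏ p ∈ l.primeFactors, (1 - ((p : ℝ))⁻¹)⁻¹) :=
    (hasSum_subtype_iff_indicator (f := fun n : ℕ => ((n : ℝ))⁻¹)).1 hEP
  have htot : (l.totient : ℝ) = l * ∏ p ∈ l.primeFactors, (1 - ((p : ℝ))⁻¹) := by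
    have := Nat.totient_eq_mul_prod_factors l
    have h := congrArg (fun x : ℚ => (x : ℝ)) this
    push_cast at h
    exact h
  set F := (Icc 1 N).filter (fun n => ll m n = l) with hF
  have hdv : ∀ n ∈ F, l ∣ n := fun n hn => by
    obtain ⟨h1, h2⟩ := Finset.mem_filter.1 hn
    have := ll_dvd (m := m) (n := n)
    rwa [h2] at this
  have hinj : Set.InjOn (fun n => n / l) (F : Set ℕ) := by
    intro a ha b hb hab
    have h1 := Nat.div_mul_cancel (hdv a ha)
    have h2 := Nat.div_mul_cancel (hdv b hb)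
    simp only at hab
    rw [← h1, ← h2, hab]
  have hmem : ∀ n ∈ F, n / l ∈ Nat.factoredNumbers S := by
    intro n hn
    obtain ⟨h1, h2⟩ := Finset.mem_filter.1 hn
    have hn0 : n ≠ 0 := by have := (Finset.mem_Icc.1 h1).1; omega
    rw [Nat.mem_factoredNumbers_iff_forall_le]
    have hk0 : n / l ≠ 0 := by
      have := Nat.div_mul_cancel (hdv n hn)
      intro h
      rw [h] at this
      omega
    refine ⟨hk0, fun p _ hp hpk => ?_⟩
    have hpn : p ∣ n := hpk.trans (Nat.div_dvd_of_dvd (hdv n hn))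
    rw [hS, Finset.mem_union]
    by_cases h10 : p ∣ m
    · left
      rw [Nat.mem_primeFactors]
      exact ⟨hp, h10, hm.ne'⟩
    · right
      rw [Nat.mem_primeFactors]
      refine ⟨hp, ?_, hl0⟩
      rw [← h2]
      exact prime_dvd_ll hn0 hp hpn h10
  have hsum : ∑ n ∈ F, ((n : ℝ))⁻¹ = (l : ℝ)⁻¹ * ∑ k ∈ F.image (fun n => n / l),
      (Nat.factoredNumbers S).indicator (fun n : ℕ => ((n : ℝ))⁻¹) k := by
    rw [Finset.sum_image hinj, Finset.mul_sum]
    apply Finset.sum_congr rfl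
    intro n hn
    rw [Set.indicator_of_mem (hmem n hn)]
    have h1 := Nat.div_mul_cancel (hdv n hn)
    have h2 : (n : ℝ) = ((n / l : ℕ) : ℝ) * l := by
      rw [← Nat.cast_mul, h1]
    rw [h2, mul_inv, mul_comm]
  have hle : ∑ k ∈ F.image (fun n => n / l),
      (Nat.factoredNumbers S).indicator (fun n : ℕ => ((n : ℝ))⁻¹) k ≤
      m / (m.totient : ℝ) * ∏ p ∈ l.primeFactors, (1 - ((p : ℝ))⁻¹)⁻¹ := by
    apply sum_le_hasSum _ _ hind
    intro k _
    exact Set.indicator_nonneg (fun x _ => by positivity) k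
  rw [hsum, htot, one_div, mul_inv, ← Finset.prod_inv_distrib]
  have := mul_le_mul_of_nonneg_left hle (inv_nonneg.2 hlpos.le)
  linarith

/-- the lower bound for Selberg's function -/
theorem G_log {m : ℕ} (hm : 0 < m) (z : ℕ) (ξ u : ℝ) (h1 : 1 ≤ u) (h2 : u < z) (h3 : u ≤ ξ) :
    (m.totient : ℝ) / m * Real.log u ≤ GZ m ξ z := by
  set N := ⌊u⌋₊ with hN
  have hNu : (N : ℝ) ≤ u := Nat.floor_le (by linarith)
  have huN : u < N + 1 := Nat.lt_floor_add_one u
  have hlog : Real.log u ≤ ∑ n ∈ Icc 1 N, ((n : ℝ))⁻¹ := by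
    have h4 := log_add_one_le_harmonic N
    have h5 : ((harmonic N : ℚ) : ℝ) = ∑ n ∈ Icc 1 N, ((n : ℝ))⁻¹ := by
      rw [harmonic_eq_sum_Icc]
      push_cast
      rfl
    rw [h5] at h4
    push_cast at h4
    refine le_trans (Real.log_le_log (by linarith) huN.le) h4
  have hmaps : ∀ n ∈ Icc 1 N, ll m n ∈ (PZ m z).divisors.filter (fun l : ℕ => (l : ℝ) ≤ ξ) := by
    intro n hn
    obtain ⟨hn1, hn2⟩ := Finset.mem_Icc.1 hn
    have hnu : (n : ℝ) ≤ u := le_trans (by exact_mod_cast hn2) hNu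
    rw [Finset.mem_filter, Nat.mem_divisors]
    refine ⟨⟨ll_dvd_PZ ?_, PZ_ne_zero m z⟩, ?_⟩
    · exact_mod_cast lt_of_le_of_lt hnu h2
    · have := Nat.le_of_dvd hn1 (ll_dvd (m := m) (n := n))
      have : (ll m n : ℝ) ≤ n := by exact_mod_cast this
      linarith
  have hfib := Finset.sum_fiberwise_of_maps_to hmaps (fun n : ℕ => ((n : ℝ))⁻¹)
  have hle : ∑ n ∈ Icc 1 N, ((n : ℝ))⁻¹ ≤ m / (m.totient : ℝ) * GZ m ξ z := by
    rw [← hfib]
    unfold GZ
    rw [Finset.mul_sum]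
    apply Finset.sum_le_sum
    intro l hl
    exact fibre hm N z l (Nat.dvd_of_mem_divisors (Finset.mem_filter.1 hl).1)
  have htp : (0 : ℝ) < m.totient := by exact_mod_cast Nat.totient_pos.2 hm
  have hmp : (0 : ℝ) < m := by exact_mod_cast hm
  have h5 : Real.log u ≤ m / (m.totient : ℝ) * GZ m ξ z := hlog.trans hle
  calc (m.totient : ℝ) / m * Real.log u ≤ (m.totient : ℝ) / m * (m / (m.totient : ℝ) * GZ m ξ z) :=
        mul_le_mul_of_nonneg_left h5 (by positivity)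
    _ = GZ m ξ z := by
        rw [← mul_assoc, div_mul_div_comm, mul_comm (m.totient : ℝ) m, div_self (by positivity), one_mul]

end Pool.Agent.TH872.PF
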