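import Pool.Agent.TH872.PF.A2
import Pool.Agent.TH872.PF.B1

/-! Upper bound for the primes in a family of palindromes. -/

set_option autoImplicit false

namespace Pool.Agent.TH872.PF

open Finset Filter Topology
open Pool.Agent.W89.Sv (PZ GZ sift rem selberg PP mem_PP prime_dvd_PZ PZ_sqf)

lemma cop_PZ {m z l : ℕ} (hl : l ∣ PZ m z) : l.Coprime m := by
  apply Nat.Coprime.coprime_dvd_left hl
  rw [PZ]
  apply Nat.Coprime.prod_left
  intro p hp
  rw [mem_PP] at hp
  exact (Nat.Prime.coprime_iff_not_dvd hp.2.1).2 hp.2.2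

lemma rem_le {b : ℕ} (hb : 0 < b) (L J N0 q a l : ℕ) (hq : q.Coprime (2 * b)) (hl : l.Coprime (2 * b * q)) :
    |rem ((univ : Finset (Fin L → Fin b)).filter (fun m => vv b L J N0 m ≡ a [MOD q])) (vv b L J N0) ((b : ℝ) ^ L / q) l| ≤
      EE b L (q * l) := by
  have hlq : q.Coprime l := (Nat.Coprime.coprime_mul_left_right hl).symm
  have hl2 : l.Coprime (2 * b) := Nat.Coprime.coprime_mul_right_right hl
  obtain ⟨h, h1, h2⟩ := Nat.chineseRemainder hlq a 0
  have h3 := cnt_vv hb L J N0 (q * l) h (Nat.Coprime.mul_left hq hl2)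
  have h4 : rem ((univ : Finset (Fin L → Fin b)).filter (fun m => vv b L J N0 m ≡ a [MOD q])) (vv b L J N0) ((b : ℝ) ^ L / q) l =
      (((univ : Finset (Fin L → Fin b)).filter (fun m => vv b L J N0 m ≡ h [MOD q * l])).card : ℝ) - (b : ℝ) ^ L / ((q * l : ℕ) : ℝ) := by
    unfold rem
    rw [filter_filter]
    congr 1
    · congr 2
      apply filter_congr
      intro m _
      rw [← Nat.modEq_and_modEq_iff_modEq_mul hlq]
      constructor
      · rintro ⟨h5, h6⟩
        exact ⟨h5.trans h1.symm, (Nat.modEq_zero_iff_dvd.2 h6).trans h2.symm⟩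
      · rintro ⟨h5, h6⟩
        exact ⟨h5.trans h1, Nat.modEq_zero_iff_dvd.1 (h6.trans h2)⟩
    · push_cast
      rw [div_div]
  rw [h4]
  exact h3

/-- the bound for one family, before the choice of parameters -/
lemma fam0 {b : ℕ} (hb : 2 ≤ b) (L J N0 q a : ℕ) (hq : q.Coprime (2 * b)) (hq1 : 1 ≤ q) (D E : ℝ) (hD : 16 < D / q)
    (hDN : D < N0)
    (hE : ∑ q ∈ (Icc 1 ⌊D⌋₊).filter (fun q => q.Coprime (2 * b)), (q.divisors.card : ℝ) ^ 2 * EE b L q ≤ E) :
    (((univ : Finset (Fin L → Fin b)).filter (fun m => vv b L J N0 m ≡ a [MOD q] ∧ (vv b L J N0 m).Prime)).card : ℝ) ≤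
      (b : ℝ) ^ L / q * (((2 * b * q : ℕ) : ℝ) / ((2 * b * q).totient : ℝ) / (Real.log (D / q) / 2 - Real.log 2)) + E := by
  have hqr : (1 : ℝ) ≤ q := by exact_mod_cast hq1
  have hq0 : (0 : ℝ) < q := by linarith
  have hbr : (0 : ℝ) < b := by exact_mod_cast (by omega : 0 < b)
  have hm : 0 < 2 * b * q := by positivity
  obtain ⟨D1, hD1⟩ : ∃ D1 : ℝ, D1 = D / q := ⟨_, rfl⟩
  rw [← hD1] at hD ⊢
  have hDq : D1 * q = D := by
    rw [hD1]; field_simp
  have hs2 : 2 ≤ Real.sqrt D1 := by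
    rw [show (2 : ℝ) = Real.sqrt 4 by rw [show (4 : ℝ) = 2 ^ 2 by norm_num]; simp]
    exact Real.sqrt_le_sqrt (by linarith)
  set z := ⌈Real.sqrt D1⌉₊ with hz
  have hzr : Real.sqrt D1 ≤ (z : ℝ) := Nat.le_ceil _
  have hzr2 : (z : ℝ) < Real.sqrt D1 + 1 := Nat.ceil_lt_add_one (by linarith)
  have hsq : Real.sqrt D1 + 1 ≤ D1 := by
    have h1 : Real.sqrt D1 * Real.sqrt D1 = D1 := Real.mul_self_sqrt (by linarith)
    nlinarith
  have hzN : (z : ℝ) < N0 := by
    have : D1 ≤ D := by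
      rw [← hDq]
      nlinarith
    linarith
  have hzN' : z < N0 := by exact_mod_cast hzN
  set S := (univ : Finset (Fin L → Fin b)).filter (fun m => vv b L J N0 m ≡ a [MOD q]) with hS
  have h1 : (((univ : Finset (Fin L → Fin b)).filter (fun m => vv b L J N0 m ≡ a [MOD q] ∧ (vv b L J N0 m).Prime)).card : ℝ) ≤
      sift (2 * b * q) S (vv b L J N0) 1 z := by
    unfold sift
    have : ((univ : Finset (Fin L → Fin b)).filter (fun m => vv b L J N0 m ≡ a [MOD q] ∧ (vv b L J N0 m).Prime)) ⊆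
        S.filter (fun m => 1 ∣ vv b L J N0 m ∧ (vv b L J N0 m).Coprime (PZ (2 * b * q) z)) := by
      intro m hm'
      rw [mem_filter] at hm' ⊢
      rw [hS, mem_filter]
      refine ⟨⟨mem_univ _, hm'.2.1⟩, one_dvd _, ?_⟩
      rw [Nat.Prime.coprime_iff_not_dvd hm'.2.2]
      intro hdvd
      have h2 := (prime_dvd_PZ hm'.2.2 hdvd).1
      have h3 : N0 ≤ vv b L J N0 m := by
        unfold vv
        exact Nat.le_add_right _ _
      omega
    exact_mod_cast card_le_card this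
  have h2 := selberg (2 * b * q) S (vv b L J N0) ((b : ℝ) ^ L / q) (by positivity) z 1 (Nat.coprime_one_left _) one_pos
    (Real.sqrt D1) (by linarith)
  have h3 := G_log hm z (Real.sqrt D1) (Real.sqrt D1 / 2) (by linarith) (by linarith) (by linarith)
  have h4 : Real.log (Real.sqrt D1 / 2) = Real.log D1 / 2 - Real.log 2 := by
    rw [Real.log_div (by linarith) (by norm_num), Real.log_sqrt (by linarith)]
  rw [h4] at h3
  have hpos : 0 < Real.log D1 / 2 - Real.log 2 := by
    have h5 : Real.log 16 < Real.log D1 := Real.log_lt_log (by norm_num) hD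
    have h6 : Real.log 16 = 4 * Real.log 2 := by
      rw [show (16 : ℝ) = 2 ^ 4 by norm_num, Real.log_pow]
      push_cast
      ring
    have h7 : 0 < Real.log 2 := Real.log_pos (by norm_num)
    linarith
  have hmr : (0 : ℝ) < ((2 * b * q : ℕ) : ℝ) := by exact_mod_cast hm
  have htr : (0 : ℝ) < ((2 * b * q).totient : ℝ) := by exact_mod_cast Nat.totient_pos.2 hm
  have h5 : (b : ℝ) ^ L / q / ((1 : ℕ) : ℝ) / GZ (2 * b * q) (Real.sqrt D1) z ≤
      (b : ℝ) ^ L / q * (((2 * b * q : ℕ) : ℝ) / ((2 * b * q).totient : ℝ) / (Real.log D1 / 2 - Real.log 2)) := by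
    rw [Nat.cast_one, div_one, div_eq_mul_inv ((b : ℝ) ^ L / q)]
    apply mul_le_mul_of_nonneg_left _ (by positivity)
    have h6 : 0 < ((2 * b * q).totient : ℝ) / ((2 * b * q : ℕ) : ℝ) * (Real.log D1 / 2 - Real.log 2) := by positivity
    refine (inv_anti₀ h6 h3).trans (le_of_eq ?_)
    rw [mul_inv, inv_div, div_eq_mul_inv _ (Real.log D1 / 2 - Real.log 2)]
  have h6 : ∑ l ∈ (PZ (2 * b * q) z).divisors.filter (fun l : ℕ => (l : ℝ) ≤ Real.sqrt D1 ^ 2),
      (l.divisors.card : ℝ) ^ 2 * |rem S (vv b L J N0) ((b : ℝ) ^ L / q) (1 * l)| ≤ E := by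
    refine le_trans ?_ hE
    rw [Real.sq_sqrt (by linarith)]
    calc ∑ l ∈ (PZ (2 * b * q) z).divisors.filter (fun l : ℕ => (l : ℝ) ≤ D1),
          (l.divisors.card : ℝ) ^ 2 * |rem S (vv b L J N0) ((b : ℝ) ^ L / q) (1 * l)| ≤
        ∑ l ∈ (PZ (2 * b * q) z).divisors.filter (fun l : ℕ => (l : ℝ) ≤ D1), ((q * l).divisors.card : ℝ) ^ 2 * EE b L (q * l) := by
          apply sum_le_sum
          intro l hl
          rw [mem_filter, Nat.mem_divisors] at hl
          have hl0 : 0 < l := Nat.pos_of_dvd_of_pos hl.1.1 (Nat.pos_of_ne_zero hl.1.2)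
          rw [one_mul]
          have h7 : l.divisors.card ≤ (q * l).divisors.card :=
            card_le_card (Nat.divisors_subset_of_dvd (Nat.mul_pos hq1 hl0).ne' (dvd_mul_left l q))
          have h8 : (l.divisors.card : ℝ) ≤ ((q * l).divisors.card : ℝ) := by exact_mod_cast h7
          exact mul_le_mul (pow_le_pow_left₀ (Nat.cast_nonneg _) h8 2)
            (rem_le (by omega) L J N0 q a l hq (cop_PZ hl.1.1)) (abs_nonneg _) (by positivity)
      _ = ∑ q' ∈ ((PZ (2 * b * q) z).divisors.filter (fun l : ℕ => (l : ℝ) ≤ D1)).image (fun l => q * l),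
            (q'.divisors.card : ℝ) ^ 2 * EE b L q' := by
          rw [sum_image]
          intro x _ y _ h
          exact Nat.eq_of_mul_eq_mul_left hq1 h
      _ ≤ _ := by
          apply sum_le_sum_of_subset_of_nonneg
          · intro q' hq'
            obtain ⟨l, hl, rfl⟩ := mem_image.1 hq'
            rw [mem_filter, Nat.mem_divisors] at hl
            have hl0 : 0 < l := Nat.pos_of_dvd_of_pos hl.1.1 (Nat.pos_of_ne_zero hl.1.2)
            rw [mem_filter, mem_Icc]
            refine ⟨⟨Nat.mul_pos hq1 hl0, Nat.le_floor ?_⟩, ?_⟩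
            · push_cast
              rw [← hDq, mul_comm]
              exact mul_le_mul_of_nonneg_right hl.2 hq0.le
            · exact Nat.Coprime.mul_left hq (Nat.Coprime.coprime_mul_right_right (cop_PZ hl.1.1))
          · intro q' _ _
            exact mul_nonneg (by positivity) (EE_nonneg b L q')
  linarith

/-- upper bound for the primes in one family -/
theorem family {b : ℕ} (hb : 2 ≤ b) {κ : ℝ} (hκ : Adm b κ) (η : ℝ) (hη : 0 < η) (B : ℕ) : ∀ᶠ L : ℕ in atTop,
    ∀ J N0 q a : ℕ, q.Coprime (2 * b) → 1 ≤ q → (q : ℝ) ≤ (L : ℝ) ^ B → b ^ (2 * L) ≤ N0 →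
    (((univ : Finset (Fin L → Fin b)).filter (fun m => vv b L J N0 m ≡ a [MOD q] ∧ (vv b L J N0 m).Prime)).card : ℝ) ≤
      (2 / κ + η) * (((2 * b : ℕ) : ℝ) / ((2 * b).totient : ℝ)) * ((b : ℝ) ^ L / ((q.totient : ℝ) * (L * Real.log b))) := by
  have hκ0 := hκ.1
  have hκ1 := hκ.2.1
  have hbR : (2 : ℝ) ≤ b := by exact_mod_cast hb
  have hb0 : (0 : ℝ) < b := by linarith
  have hb1 : (1 : ℝ) < b := by linarith
  have hlb : 0 < Real.log b := Real.log_pos hb1
  obtain ⟨ρ, hρ⟩ : ∃ ρ : ℝ, ρ = ((2 * b : ℕ) : ℝ) / ((2 * b).totient : ℝ) := ⟨_, rfl⟩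
  rw [← hρ]
  have h2b : 0 < 2 * b := by omega
  have hρ0 : 0 < ρ := by
    rw [hρ]
    have h1 : (0 : ℝ) < ((2 * b).totient : ℝ) := by exact_mod_cast Nat.totient_pos.2 h2b
    have h2 : (0 : ℝ) < ((2 * b : ℕ) : ℝ) := by exact_mod_cast h2b
    positivity
  -- limits
  have hlogL : Tendsto (fun L : ℕ => (B : ℝ) * (Real.log L / L)) atTop (𝓝 (B * 0)) := by
    apply Tendsto.const_mul
    have h1 : Tendsto (fun x : ℝ => Real.log x / x) atTop (𝓝 0) := by
      have := Real.isLittleO_log_id_atTop.tendsto_div_nhds_zero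
      simpa using this
    exact h1.comp tendsto_natCast_atTop_atTop
  have hinv : Tendsto (fun L : ℕ => Real.log 2 / (L : ℝ)) atTop (𝓝 0) :=
    tendsto_const_nhds.div_atTop tendsto_natCast_atTop_atTop
  have hinv1 : Tendsto (fun L : ℕ => (1 : ℝ) / (L : ℝ)) atTop (𝓝 0) :=
    tendsto_const_nhds.div_atTop tendsto_natCast_atTop_atTop
  have hden : Tendsto (fun L : ℕ => (κ * Real.log b - (B : ℝ) * (Real.log L / L)) / 2 - Real.log 2 / (L : ℝ)) atTop
      (𝓝 ((κ * Real.log b - B * 0) / 2 - 0)) := ((hlogL.const_sub _).div_const 2).sub hinv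
  have hlim : Tendsto (fun L : ℕ => ρ / ((κ * Real.log b - (B : ℝ) * (Real.log L / L)) / 2 - Real.log 2 / (L : ℝ)) + 1 / (L : ℝ)) atTop
      (𝓝 (ρ / ((κ * Real.log b - B * 0) / 2 - 0) + 0)) := by
    apply Tendsto.add _ hinv1
    apply Tendsto.div tendsto_const_nhds hden
    rw [mul_zero, sub_zero, sub_zero]
    positivity
  have hlt : ρ / ((κ * Real.log b - B * 0) / 2 - 0) + 0 < (2 / κ + η) * ρ / Real.log b := by
    rw [mul_zero, sub_zero, sub_zero, add_zero, div_lt_div_iff₀ (by positivity) hlb]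
    have h1 : (2 / κ + η) * ρ * (κ * Real.log b / 2) = ρ * Real.log b + η * ρ * (κ * Real.log b / 2) := by
      field_simp
    rw [h1]
    have : 0 < η * ρ * (κ * Real.log b / 2) := by positivity
    linarith
  have hev := hlim.eventually_lt_const hlt
  have hevd : ∀ᶠ L : ℕ in atTop, 0 < (κ * Real.log b - (B : ℝ) * (Real.log L / L)) / 2 - Real.log 2 / (L : ℝ) := by
    apply hden.eventually_const_lt
    rw [mul_zero, sub_zero, sub_zero]
    positivity
  have hbig : ∀ᶠ L : ℕ in atTop, (L : ℝ) ^ B * 17 ≤ (b : ℝ) ^ (κ * L) := by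
    have h1 := tendsto_pow_const_div_const_pow_of_one_lt B (r := (b : ℝ) ^ κ) (Real.one_lt_rpow hb1 hκ0)
    have h2 := h1.eventually (gt_mem_nhds (show (0 : ℝ) < 1 / 17 by norm_num))
    filter_upwards [h2] with L hL
    have h3 : (0 : ℝ) < ((b : ℝ) ^ κ) ^ L := by positivity
    rw [div_lt_div_iff₀ h3 (by norm_num)] at hL
    rw [Real.rpow_mul hb0.le, Real.rpow_natCast]
    linarith
  filter_upwards [hev, hevd, hbig, EE_sum hb hκ (B + 2), eventually_ge_atTop 1] with L h1 h2 h3 h4 h5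
  intro J N0 q a hq hq1 hqL hN0
  have hL1 : (1 : ℝ) ≤ L := by exact_mod_cast h5
  have hL0 : (0 : ℝ) < L := by linarith
  have hqr : (1 : ℝ) ≤ q := by exact_mod_cast hq1
  have hq0 : (0 : ℝ) < q := by linarith
  set D : ℝ := (b : ℝ) ^ (κ * L) with hD
  have hDq : 16 < D / q := by
    rw [lt_div_iff₀ hq0]
    nlinarith
  have hDN : D < N0 := by
    have e1 : D < (b : ℝ) ^ (2 * (L : ℝ)) := by
      rw [hD]
      apply Real.rpow_lt_rpow_of_exponent_lt hb1
      nlinarith
    have e2 : (b : ℝ) ^ (2 * (L : ℝ)) = ((b ^ (2 * L) : ℕ) : ℝ) := by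
      rw [show (2 : ℝ) * L = ((2 * L : ℕ) : ℝ) by push_cast; ring, Real.rpow_natCast]
      push_cast
      rfl
    have e3 : ((b ^ (2 * L) : ℕ) : ℝ) ≤ N0 := by exact_mod_cast hN0
    rw [e2] at e1
    linarith
  have h6 := fam0 hb L J N0 q a hq hq1 D _ hDq hDN h4
  refine h6.trans ?_
  have htq : (0 : ℝ) < q.totient := by exact_mod_cast Nat.totient_pos.2 hq1
  have htot : ((2 * b * q : ℕ) : ℝ) / ((2 * b * q).totient : ℝ) = ρ * (q / q.totient) := by
    rw [Nat.totient_mul hq.symm, hρ]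
    push_cast
    rw [mul_div_mul_comm]
  have hlog : L * ((κ * Real.log b - (B : ℝ) * (Real.log L / L)) / 2 - Real.log 2 / (L : ℝ)) ≤ Real.log (D / q) / 2 - Real.log 2 := by
    have e1 : Real.log (D / q) = κ * L * Real.log b - Real.log q := by
      rw [Real.log_div (by positivity) hq0.ne', hD, Real.log_rpow hb0]
    have e2 : Real.log q ≤ B * Real.log L := by
      rw [← Real.log_pow]
      exact Real.log_le_log hq0 hqL
    have e3 : L * ((κ * Real.log b - (B : ℝ) * (Real.log L / L)) / 2 - Real.log 2 / (L : ℝ)) =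
        (κ * L * Real.log b - B * Real.log L) / 2 - Real.log 2 := by
      field_simp
    rw [e1, e3]
    linarith
  obtain ⟨x, hx⟩ : ∃ x : ℝ, x = (κ * Real.log b - (B : ℝ) * (Real.log L / L)) / 2 - Real.log 2 / (L : ℝ) := ⟨_, rfl⟩
  rw [← hx] at hlog h1 h2
  have hbL : (0 : ℝ) < (b : ℝ) ^ L := by positivity
  have h7 : (b : ℝ) ^ L / q * (((2 * b * q : ℕ) : ℝ) / ((2 * b * q).totient : ℝ) / (Real.log (D / q) / 2 - Real.log 2)) ≤
      (b : ℝ) ^ L / (q.totient * L) * (ρ / x) := by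
    rw [htot]
    calc (b : ℝ) ^ L / q * (ρ * (q / q.totient) / (Real.log (D / q) / 2 - Real.log 2)) ≤
          (b : ℝ) ^ L / q * (ρ * (q / q.totient) / (L * x)) := by
            apply mul_le_mul_of_nonneg_left _ (by positivity)
            exact div_le_div_of_nonneg_left (by positivity) (by positivity) hlog
      _ = (b : ℝ) ^ L / (q.totient * L) * (ρ / x) := by
            field_simp
  have h8 : (b : ℝ) ^ L / (L : ℝ) ^ (B + 2) ≤ (b : ℝ) ^ L / (q.totient * L) * (1 / L) := by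
    have e1 : (q.totient : ℝ) ≤ (L : ℝ) ^ B := by
      have : (q.totient : ℝ) ≤ q := by exact_mod_cast Nat.totient_le q
      linarith
    rw [div_mul_div_comm, mul_one]
    apply div_le_div_of_nonneg_left hbL.le (by positivity)
    calc (q.totient : ℝ) * L * L ≤ (L : ℝ) ^ B * L * L := by gcongr
      _ = (L : ℝ) ^ (B + 2) := by ring
  calc _ ≤ (b : ℝ) ^ L / (q.totient * L) * (ρ / x) + (b : ℝ) ^ L / (q.totient * L) * (1 / L) := add_le_add h7 h8
    _ = (b : ℝ) ^ L / (q.totient * L) * (ρ / x + 1 / L) := by ring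
    _ ≤ (b : ℝ) ^ L / (q.totient * L) * ((2 / κ + η) * ρ / Real.log b) := mul_le_mul_of_nonneg_left h1.le (by positivity)
    _ = _ := by
        rw [div_mul_div_comm, mul_div_assoc' _ ((b : ℝ) ^ L)]
        congr 1
        · ring
        · ring

end Pool.Agent.TH872.PF
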