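import Pool.Agent.TH872.PF.B2
import Pool.Agent.TH872.PF.A7
import Pool.Agent.H181R5.PB_T9

/-! Upper bound for the palindromic primes. -/

set_option autoImplicit false

namespace Pool.Agent.TH872.PF

open Finset Filter Topology

/-- `b` for even `b`, `b - 1` for odd `b` -/
def cb (b : ℕ) : ℕ := if Even b then b else b - 1

/-- the middle digits of the odd palindromes -/
def mids (b : ℕ) : Finset (Fin b) := univ.filter (fun c : Fin b => Odd b → Odd (c : ℕ))

lemma card_mids (b : ℕ) : (mids b).card = if Even b then b else (b - 1) / 2 := by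
  unfold mids
  split_ifs with h
  · have h1 : ¬ Odd b := Nat.not_odd_iff_even.2 h
    simp [h1]
  · have h1 : Odd b := Nat.not_even_iff_odd.1 h
    simp only [h1, forall_true_left]
    have h2 : ((univ : Finset (Fin b)).filter (fun c : Fin b => Odd (c : ℕ))).card = ((range b).filter (fun c => Odd c)).card := by
      have h3 : ((univ : Finset (Fin b)).filter (fun c : Fin b => Odd (c : ℕ))).image (fun c : Fin b => (c : ℕ)) =
          (range b).filter (fun c => Odd c) := by
        ext x
        simp only [mem_image, mem_filter, mem_univ, true_and, mem_range]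
        constructor
        · rintro ⟨c, hc, rfl⟩
          exact ⟨c.2, hc⟩
        · rintro ⟨hx, ho⟩
          exact ⟨⟨x, hx⟩, ho, rfl⟩
      rw [← h3, card_image_of_injective _ Fin.val_injective]
    rw [h2]
    obtain ⟨k, rfl⟩ := h1
    have h3 : (range (2 * k + 1)).filter (fun c => Odd c) = (range k).image (fun i => 2 * i + 1) := by
      ext x
      simp only [mem_image, mem_filter, mem_range]
      constructor
      · rintro ⟨hx, j, rfl⟩
        exact ⟨j, by omega, rfl⟩
      · rintro ⟨j, hj, rfl⟩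
        exact ⟨by omega, j, rfl⟩
    rw [h3, card_image_of_injective _ (fun x y h => by simpa using h), card_range]
    omega

lemma mids_rho {b : ℕ} (hb : 2 ≤ b) : ((mids b).card : ℝ) * (((2 * b : ℕ) : ℝ) / ((2 * b).totient : ℝ)) =
    (cb b : ℝ) * ((b : ℝ) / b.totient) := by
  rw [card_mids]
  unfold cb
  split_ifs with h
  · rw [Nat.totient_two_mul_of_even h]
    push_cast
    rw [mul_div_mul_left _ _ (by norm_num)]
  · have h1 : Odd b := Nat.not_even_iff_odd.1 h
    rw [Nat.totient_two_mul_of_odd h1]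
    obtain ⟨k, rfl⟩ := h1
    have e1 : (2 * k + 1 - 1) / 2 = k := by omega
    have e2 : 2 * k + 1 - 1 = 2 * k := by omega
    rw [e1, e2]
    push_cast
    ring

/-- the number of palindromic primes with prescribed outer digits -/
theorem outer {b : ℕ} (hb : 2 ≤ b) {κ : ℝ} (hκ : Adm b κ) (η : ℝ) (hη : 0 < η) (B : ℕ) : ∀ᶠ L : ℕ in atTop,
    ∀ (d : ℕ) (w : List ℕ), d.Coprime b → ∀ q a : ℕ, q.Coprime (2 * b) → 1 ≤ q → (q : ℝ) ≤ (L : ℝ) ^ B →
    (((univ : Finset ((Fin L → Fin b) × Fin b)).filter (fun x => pal b L (d :: w) x.1 x.2 ≡ a [MOD q] ∧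
      (pal b L (d :: w) x.1 x.2).Prime)).card : ℝ) ≤
      (2 / κ + η) * ((cb b : ℝ) * b ^ (L + 1) / ((b.totient : ℝ) * q.totient * (L * Real.log b))) := by
  filter_upwards [family hb hκ η hη B, eventually_ge_atTop 2] with L h1 hL2
  intro d w hd q a hq hq1 hqL
  obtain ⟨N0, hN0⟩ : ∃ N0 : ℕ, N0 = Nat.ofDigits b (d :: w) + b ^ (2 * L + w.length + 2) * Nat.ofDigits b (d :: w).reverse := ⟨_, rfl⟩
  have hd0 : 0 < d := by
    rcases Nat.eq_zero_or_pos d with h0 | h0
    · rw [h0, Nat.coprime_zero_left] at hd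
      omega
    · exact h0
  have hN0b : b ^ (2 * L) ≤ N0 := by
    have h2 : 1 ≤ Nat.ofDigits b (d :: w).reverse := by
      rw [List.reverse_cons, Nat.ofDigits_append, Nat.ofDigits_singleton]
      have : 0 < b ^ w.reverse.length * d := by positivity
      omega
    have h3 : b ^ (2 * L) ≤ b ^ (2 * L + w.length + 2) := Nat.pow_le_pow_right (by omega) (by omega)
    rw [hN0]
    calc b ^ (2 * L) ≤ b ^ (2 * L + w.length + 2) := h3
      _ ≤ b ^ (2 * L + w.length + 2) * Nat.ofDigits b (d :: w).reverse := Nat.le_mul_of_pos_right _ h2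
      _ ≤ _ := Nat.le_add_left _ _
  have hpal : ∀ (u : Fin L → Fin b) (c : Fin b), pal b L (d :: w) u c = vv b L w.length (N0 + (c : ℕ) * b ^ (L + w.length + 1)) u := by
    intro u c
    have h1 := pal_vv b L w.length (d :: w) (by simp) u c
    rw [← hN0] at h1
    refine h1.trans ?_
    unfold vv
    ring
  have hcnt : (((univ : Finset ((Fin L → Fin b) × Fin b)).filter (fun x => pal b L (d :: w) x.1 x.2 ≡ a [MOD q] ∧
      (pal b L (d :: w) x.1 x.2).Prime)).card : ℝ) = ∑ c : Fin b,
        (((univ : Finset (Fin L → Fin b)).filter (fun u => pal b L (d :: w) u c ≡ a [MOD q] ∧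
          (pal b L (d :: w) u c).Prime)).card : ℝ) := by
    rw [card_filter, Fintype.sum_prod_type_right, Nat.cast_sum]
    apply sum_congr rfl
    intro c _
    rw [card_filter]
  have hz : ∀ c : Fin b, c ∉ mids b → (((univ : Finset (Fin L → Fin b)).filter (fun u => pal b L (d :: w) u c ≡ a [MOD q] ∧
          (pal b L (d :: w) u c).Prime)).card : ℝ) = 0 := by
    intro c hc
    unfold mids at hc
    simp only [mem_filter, mem_univ, true_and, Classical.not_imp] at hc
    rw [Nat.cast_eq_zero, card_eq_zero, filter_eq_empty_iff]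
    rintro u _ ⟨_, hp⟩
    have h2 := pal_par b L (Nat.odd_iff.1 hc.1) (d :: w) u c
    have h3 : (c : ℕ) % 2 = 0 := by
      have := hc.2
      rw [Nat.not_odd_iff_even] at this
      exact Nat.even_iff.1 this
    rw [h3] at h2
    rcases hp.eq_two_or_odd with h4 | h4
    · have h5 : N0 ≤ pal b L (d :: w) u c := by
        rw [hpal]
        unfold vv
        omega
      have h6 : 2 ^ 4 ≤ b ^ (2 * L) := (Nat.pow_le_pow_left hb 4).trans (Nat.pow_le_pow_right (by omega) (by omega))
      omega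
    · omega
  have hf : ∀ c : Fin b, (((univ : Finset (Fin L → Fin b)).filter (fun u => pal b L (d :: w) u c ≡ a [MOD q] ∧
          (pal b L (d :: w) u c).Prime)).card : ℝ) ≤
      (2 / κ + η) * (((2 * b : ℕ) : ℝ) / ((2 * b).totient : ℝ)) * ((b : ℝ) ^ L / ((q.totient : ℝ) * (L * Real.log b))) := by
    intro c
    have h2 := h1 w.length (N0 + (c : ℕ) * b ^ (L + w.length + 1)) q a hq hq1 hqL (by omega)
    have h3 : ((univ : Finset (Fin L → Fin b)).filter (fun u => pal b L (d :: w) u c ≡ a [MOD q] ∧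
          (pal b L (d :: w) u c).Prime)) = (univ : Finset (Fin L → Fin b)).filter (fun u =>
            vv b L w.length (N0 + (c : ℕ) * b ^ (L + w.length + 1)) u ≡ a [MOD q] ∧
            (vv b L w.length (N0 + (c : ℕ) * b ^ (L + w.length + 1)) u).Prime) := by
      apply filter_congr
      intro u _
      rw [hpal]
    rw [h3]
    exact h2
  rw [hcnt, ← sum_subset (subset_univ (mids b)) (fun c _ hc => hz c hc)]
  refine (sum_le_sum fun c _ => hf c).trans (le_of_eq ?_)
  rw [sum_const, nsmul_eq_mul]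
  have h4 := mids_rho hb
  calc ((mids b).card : ℝ) * ((2 / κ + η) * (((2 * b : ℕ) : ℝ) / ((2 * b).totient : ℝ)) * ((b : ℝ) ^ L / ((q.totient : ℝ) * (L * Real.log b)))) =
      (2 / κ + η) * (((mids b).card : ℝ) * (((2 * b : ℕ) : ℝ) / ((2 * b).totient : ℝ))) * ((b : ℝ) ^ L / ((q.totient : ℝ) * (L * Real.log b))) := by
        ring
    _ = (2 / κ + η) * ((cb b : ℝ) * ((b : ℝ) / b.totient)) * ((b : ℝ) ^ L / ((q.totient : ℝ) * (L * Real.log b))) := by rw [h4]
    _ = _ := by
        have e1 : (cb b : ℝ) * ((b : ℝ) / b.totient) * ((b : ℝ) ^ L / ((q.totient : ℝ) * (L * Real.log b))) =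
            (cb b : ℝ) * b ^ (L + 1) / ((b.totient : ℝ) * q.totient * (L * Real.log b)) := by
          rw [show (cb b : ℝ) * ((b : ℝ) / b.totient) = (cb b : ℝ) * b / b.totient from (mul_div_assoc _ _ _).symm,
            div_mul_div_comm]
          congr 1
          · ring
          · ring
        rw [mul_assoc, e1]

open Pool.Agent.H181R5.PBT9 (palin pvl palin_eq)

lemma pvl_pal (b l L : ℕ) (m : Fin (L + 1) → Fin b) :
    pvl b l (L + 1) m = pal b L [l] (fun i => m i.succ) (m 0) := by
  rw [pal_vv b L 0 [l] (by simp)]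
  unfold pvl vv
  rw [Fin.sum_univ_succ]
  have h1 : Pool.Agent.H39R3.PB.fr b (L + 1) ((0 : Fin (L + 1)) : ℕ) = b ^ (L + 1) := by
    unfold Pool.Agent.H39R3.PB.fr
    simp
  rw [h1]
  have h2 : ∑ i : Fin L, (m i.succ : ℕ) * Pool.Agent.H39R3.PB.fr b (L + 1) (i.succ : ℕ) =
      ∑ i : Fin L, (m i.succ : ℕ) * Pool.Agent.W89.PW.fr b L i := by
    apply sum_congr rfl
    intro i _
    rw [Pool.Agent.W89.PW.fr_eq, Fin.val_succ]
  rw [h2]
  simp only [Nat.ofDigits_singleton, List.reverse_singleton, pow_zero, one_mul, add_zero]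
  rw [show 2 * (L + 1) = 2 * L + 2 by ring]
  ring

/-- the number of palindromic primes with `2 K + 1` digits -/
theorem total {b : ℕ} (hb : 2 ≤ b) {κ : ℝ} (hκ : Adm b κ) (ε : ℝ) (hε : 0 < ε) : ∀ᶠ K : ℕ in atTop,
    (((palin b K).filter Nat.Prime).card : ℝ) ≤ (4 / κ + ε) * ((cb b : ℝ) * b ^ K / (2 * K * Real.log b)) := by
  have hκ0 := hκ.1
  have hbR : (2 : ℝ) ≤ b := by exact_mod_cast hb
  have hb0 : (0 : ℝ) < b := by linarith
  have hlb : 0 < Real.log b := Real.log_pos (by linarith)
  have h1 := outer hb hκ (ε / 4) (by positivity) 0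
  have h2 : Tendsto (fun L : ℕ => (2 / κ + ε / 4) * (1 + 1 / (L : ℝ))) atTop (𝓝 ((2 / κ + ε / 4) * (1 + 0))) :=
    (tendsto_const_nhds.add (tendsto_const_nhds.div_atTop tendsto_natCast_atTop_atTop)).const_mul _
  have h3 : (2 / κ + ε / 4) * (1 + 0) < (4 / κ + ε) / 2 := by
    have : (4 : ℝ) / κ = 2 * (2 / κ) := by ring
    rw [this]
    linarith
  have h4 := h2.eventually_lt_const h3
  have h5 : ∀ᶠ L : ℕ in atTop, (((palin b (L + 1)).filter Nat.Prime).card : ℝ) ≤
      (4 / κ + ε) * ((cb b : ℝ) * b ^ (L + 1) / (2 * ((L + 1 : ℕ) : ℝ) * Real.log b)) := by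
    filter_upwards [h1, h4, eventually_ge_atTop 1] with L h6 h7 hL1
    have hL0 : (0 : ℝ) < L := by exact_mod_cast hL1
    have hsub : (palin b (L + 1)).filter Nat.Prime ⊆ ((range b).filter (fun l => b.Coprime l)).biUnion
        (fun l => ((univ : Finset ((Fin L → Fin b) × Fin b)).filter (fun x => pal b L [l] x.1 x.2 ≡ 0 [MOD 1] ∧
          (pal b L [l] x.1 x.2).Prime)).image (fun x => pal b L [l] x.1 x.2)) := by
      intro n hn
      rw [mem_filter, palin_eq hb (L + 1) (by omega), mem_image] at hn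
      obtain ⟨⟨⟨l, m⟩, hx, rfl⟩, hp⟩ := hn
      rw [mem_product, mem_Icc] at hx
      simp only at hx hp ⊢
      rw [pvl_pal] at hp ⊢
      rw [mem_biUnion]
      refine ⟨l, ?_, ?_⟩
      · rw [mem_filter, mem_range]
        refine ⟨by omega, ?_⟩
        by_contra hcon
        obtain ⟨p, hpp, hpb, hpl⟩ := Nat.Prime.not_coprime_iff_dvd.1 hcon
        have h8 := (pal_cop b L [l] (fun i => m i.succ) (m 0) l [] rfl 0 p hpb).2 (by rw [add_zero]; exact hpl)
        rw [add_zero] at h8
        have h9 := (Nat.prime_dvd_prime_iff_eq hpp hp).1 h8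
        have h10 : p ≤ b := Nat.le_of_dvd (by omega) hpb
        have h11 : b < pal b L [l] (fun i => m i.succ) (m 0) := by
          rw [← pvl_pal]
          unfold pvl
          have h12 : 1 * (b ^ (2 * (L + 1)) + 1) ≤ l * (b ^ (2 * (L + 1)) + 1) := Nat.mul_le_mul_right _ hx.1.1
          have h13 : b ^ 1 ≤ b ^ (2 * (L + 1)) := Nat.pow_le_pow_right (by omega) (by omega)
          rw [pow_one] at h13
          omega
        omega
      · rw [mem_image]
        refine ⟨((fun i => m i.succ), m 0), ?_, rfl⟩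
        rw [mem_filter]
        exact ⟨mem_univ _, Nat.modEq_one, hp⟩
    have hcard : (((palin b (L + 1)).filter Nat.Prime).card : ℝ) ≤ ∑ l ∈ (range b).filter (fun l => b.Coprime l),
        (((univ : Finset ((Fin L → Fin b) × Fin b)).filter (fun x => pal b L [l] x.1 x.2 ≡ 0 [MOD 1] ∧
          (pal b L [l] x.1 x.2).Prime)).card : ℝ) := by
      have h8 : ((palin b (L + 1)).filter Nat.Prime).card ≤ ∑ l ∈ (range b).filter (fun l => b.Coprime l),
        ((univ : Finset ((Fin L → Fin b) × Fin b)).filter (fun x => pal b L [l] x.1 x.2 ≡ 0 [MOD 1] ∧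
          (pal b L [l] x.1 x.2).Prime)).card := by
        refine le_trans (card_le_card hsub) (le_trans card_biUnion_le ?_)
        exact sum_le_sum (fun l _ => card_image_le)
      exact_mod_cast h8
    refine hcard.trans ?_
    have hb1 : ∀ l ∈ (range b).filter (fun l => b.Coprime l),
        (((univ : Finset ((Fin L → Fin b) × Fin b)).filter (fun x => pal b L [l] x.1 x.2 ≡ 0 [MOD 1] ∧
          (pal b L [l] x.1 x.2).Prime)).card : ℝ) ≤
        (2 / κ + ε / 4) * ((cb b : ℝ) * b ^ (L + 1) / ((b.totient : ℝ) * (L * Real.log b))) := by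
      intro l hl
      rw [mem_filter] at hl
      have h8 := h6 l [] hl.2.symm 1 0 (Nat.coprime_one_left _) le_rfl (by simp)
      rw [Nat.totient_one, Nat.cast_one, mul_one] at h8
      exact h8
    refine (sum_le_sum hb1).trans ?_
    rw [sum_const, nsmul_eq_mul]
    have htot : (((range b).filter (fun l => b.Coprime l)).card : ℝ) = (b.totient : ℝ) := rfl
    rw [htot]
    have ht0 : (0 : ℝ) < b.totient := by exact_mod_cast Nat.totient_pos.2 (by omega)
    have hcb : (0 : ℝ) ≤ (cb b : ℝ) * b ^ (L + 1) / ((L + 1) * Real.log b) := by positivity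
    have hid : (b.totient : ℝ) * ((2 / κ + ε / 4) * ((cb b : ℝ) * b ^ (L + 1) / ((b.totient : ℝ) * (L * Real.log b)))) =
        ((2 / κ + ε / 4) * (1 + 1 / (L : ℝ))) * ((cb b : ℝ) * b ^ (L + 1) / ((L + 1) * Real.log b)) := by
      generalize (cb b : ℝ) * b ^ (L + 1) = X
      generalize (2 / κ + ε / 4) = Y
      generalize Real.log b = Z at hlb
      have hl : (L : ℝ) + 1 ≠ 0 := by positivity
      field_simp
    rw [hid]
    calc ((2 / κ + ε / 4) * (1 + 1 / (L : ℝ))) * ((cb b : ℝ) * b ^ (L + 1) / ((L + 1) * Real.log b)) ≤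
        ((4 / κ + ε) / 2) * ((cb b : ℝ) * b ^ (L + 1) / ((L + 1) * Real.log b)) :=
          mul_le_mul_of_nonneg_right h7.le hcb
      _ = _ := by
          push_cast
          generalize (cb b : ℝ) * (b : ℝ) ^ (L + 1) = X
          generalize Real.log (b : ℝ) = Z at hlb
          have hl : (L : ℝ) + 1 ≠ 0 := by positivity
          field_simp
  rw [eventually_atTop] at h5 ⊢
  obtain ⟨L0, h6⟩ := h5
  refine ⟨L0 + 1, fun K hK => ?_⟩
  obtain ⟨L, rfl⟩ : ∃ L, K = L + 1 := ⟨K - 1, by omega⟩
  exact h6 L (by omega)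

end Pool.Agent.TH872.PF
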